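import Mathlib
import Pool.Agent.TH314.PD.Core
import Pool.Agent.Y201.LI.Stm
import Pool.Agent.Helper386.D5V.Helper386_FF_Fund

/-! # Project T2: tangent lines through the generic point of a smooth hypersurface (statements)

`X = (F = 0)` is a smooth hypersurface of degree `d`, `x` is a generic point of `X` over `M`,
`p` is another point over `M`, and the line through `x` and `p` meets `X` only in `x` and `p`, with
multiplicity one in `x`. Then `d - 1` divides the degree of `M` over the field of the ratios of `x`.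
-/

set_option autoImplicit false

namespace Pool.Agent.R845.T2

open MvPolynomial Pool.Agent.TH314.PD IntermediateField Module FF

noncomputable section

/-- job DIV: if the hyperplane `∑ y_i ∂_i F(p) = 0` of a point `p` contains the generic point `y`
of projective space, then `d - 1` divides the degree of the field of definition over `ℂ(y)` -/
def S_DIV : Prop :=
  ∀ (r d : ℕ) (F : MvPolynomial (Fin r) ℂ), F.IsHomogeneous d → 2 ≤ d →
    (∀ z : Fin r → ℂ, (∀ i, eval z (pderiv i F) = 0) → z = 0) →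
    ∀ (E : Type) [Field E] [Algebra ℂ E] (y : Fin r → E),
      (∀ (e : ℕ) (H : MvPolynomial (Fin r) ℂ), H.IsHomogeneous e → aeval y H = 0 → H = 0) →
      FiniteDimensional (ratioField y) E →
      ∀ p : Fin r → E, p ≠ 0 → ∑ i, y i * aeval p (pderiv i F) = 0 →
      d - 1 ∣ finrank (ratioField y) E

/-- job NT: places which are not trivial on `M`; `z` is a point of the line through `x` and `p` -/
def S_NT : Prop :=
  ∀ (r d : ℕ) (F : MvPolynomial (Fin r) ℂ), F.IsHomogeneous d → 2 ≤ d → Irreducible F →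
    (∀ z : Fin r → ℂ, (∀ i, eval z (pderiv i F) = 0) → z = 0) →
    ∀ (M E : Type) [Field M] [Field E] [Algebra ℂ M] [Algebra M E] [Algebra ℂ E]
      [IsScalarTower ℂ M E] (x p : Fin r → M), LinearIndependent M ![x, p] →
      aeval x F = 0 →
      (∀ (e : ℕ) (H : MvPolynomial (Fin r) ℂ), H.IsHomogeneous e → aeval x H = 0 → F ∣ H) →
      FiniteDimensional (ratioField x) M →
      ∀ w : Place ℂ E, (∃ a : M, a ≠ 0 ∧ w.ord (algebraMap M E a) ≠ 0) →
      ∀ (z : Fin r → E) (α β : E),
        (∀ i, z i = α * algebraMap M E (x i) + β * algebraMap M E (p i)) →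
        (∀ i, w.Reg (z i)) → aeval (fun i => w.red (z i)) F = 0 →
        (∀ (e : ℕ) (H : MvPolynomial (Fin r) ℂ), H.IsHomogeneous e →
          aeval (fun i => w.red (z i)) H = 0 → F ∣ H) →
        d - 1 ∣ finrank (ratioField fun i => w.red (z i)) w.RF

/-- job FI: the fundamental identity for the places over the generic point of `X` -/
def S_FI : Prop :=
  ∀ (r d : ℕ) (F : MvPolynomial (Fin (r + 1)) ℂ), F.IsHomogeneous d → 2 ≤ d → Irreducible F →
    ∀ (E : Type) [Field E] [Algebra ℂ E] (y : Fin (r + 1) → E),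
      (∀ (e : ℕ) (H : MvPolynomial (Fin (r + 1)) ℂ), H.IsHomogeneous e → aeval y H = 0 → H = 0) →
      FiniteDimensional (ratioField y) E →
      ∃ S : Finset (Place ℂ E),
        (∀ w, w ∈ S ↔ (∀ i, w.Reg (y i / y 0)) ∧ aeval (fun i => w.red (y i / y 0)) F = 0 ∧
          ∀ (e : ℕ) (H : MvPolynomial (Fin (r + 1)) ℂ), H.IsHomogeneous e →
            aeval (fun i => w.red (y i / y 0)) H = 0 → F ∣ H) ∧
        ∑ w ∈ S, (w.ord (aeval y F / y 0 ^ d)).toNat *
          finrank (ratioField fun i => w.red (y i / y 0)) w.RF = finrank (ratioField y) E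

/-- job FD: finiteness -/
def S_FD : Prop :=
  ∀ (r d : ℕ) (F : MvPolynomial (Fin (r + 1)) ℂ), F.IsHomogeneous d → F ≠ 0 →
    ∀ (M E : Type) [Field M] [Field E] [Algebra ℂ M] [Algebra M E] [Algebra ℂ E]
      [IsScalarTower ℂ M E] (x : Fin (r + 1) → M), (∃ i, x i ≠ 0) → aeval x F = 0 →
      FiniteDimensional (ratioField x) M → ∀ s : E, adjoin M {s} = ⊤ →
      ∀ y : Fin (r + 1) → E,
      (∀ (e : ℕ) (H : MvPolynomial (Fin (r + 1)) ℂ), H.IsHomogeneous e → aeval y H = 0 → H = 0) →
      FiniteDimensional (ratioField y) E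

/-- job FIN (from `S_DIV`, `S_NT`, `S_FI`, `S_FD`) -/
def S_TAN : Prop :=
  ∀ (r d : ℕ) (F : MvPolynomial (Fin (r + 1)) ℂ), F.IsHomogeneous d → 2 ≤ d →
    (∀ z : Fin (r + 1) → ℂ, (∀ i, eval z (pderiv i F) = 0) → z = 0) →
    ∀ (M : Type) [Field M] [Algebra ℂ M] (x p : Fin (r + 1) → M) (c : M),
      LinearIndependent M ![x, p] → aeval x F = 0 →
      (∀ (e : ℕ) (H : MvPolynomial (Fin (r + 1)) ℂ), H.IsHomogeneous e → aeval x H = 0 → F ∣ H) →
      aeval (fun j => Polynomial.C (x j) + Polynomial.X * Polynomial.C (p j)) F =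
        Polynomial.C c * Polynomial.X →
      d - 1 ∣ finrank (ratioField x) M

end

end Pool.Agent.R845.T2
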