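import Mathlib
import Pool.Agent.TH314.PD.Hilb
import Pool.Agent.R845.T2.Stm

/-! # Project T2: the generic point of the line -/

set_option autoImplicit false

namespace Pool.Agent.R845.T2

open MvPolynomial Pool.Agent.TH314.PD

/-- the quotient of two forms is a form -/
theorem exists_form_quot {σ : Type} {F H Q : MvPolynomial σ ℂ} {d e : ℕ}
    (hF : F.IsHomogeneous d) (hH : H.IsHomogeneous e) (hQ : H = F * Q) (hH0 : H ≠ 0) :
    d ≤ e ∧ ∃ Q' : MvPolynomial σ ℂ, Q'.IsHomogeneous (e - d) ∧ H = F * Q' := by
  have h1 : H = ∑ j ∈ Finset.range (Q.totalDegree + 1),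
      (if d + j = e then F * homogeneousComponent j Q else 0) := by
    have h2 : homogeneousComponent e H = H := by
      rw [homogeneousComponent_of_mem hH, if_pos rfl]
    have h3 : H = ∑ j ∈ Finset.range (Q.totalDegree + 1), F * homogeneousComponent j Q := by
      rw [← Finset.mul_sum, sum_homogeneousComponent, hQ]
    conv_lhs => rw [← h2, h3]
    rw [map_sum]
    refine Finset.sum_congr rfl fun j _ => ?_
    rw [homogeneousComponent_of_mem (hF.mul (homogeneousComponent_isHomogeneous j Q))]
    by_cases h : d + j = e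
    · rw [if_pos h, if_pos h.symm]
    · rw [if_neg h, if_neg (Ne.symm h)]
  have hde : d ≤ e := by
    by_contra hcon
    apply hH0
    rw [h1]
    refine Finset.sum_eq_zero fun j _ => ?_
    rw [if_neg (by omega)]
  refine ⟨hde, homogeneousComponent (e - d) Q, homogeneousComponent_isHomogeneous _ _, ?_⟩
  by_cases hm : e - d ∈ Finset.range (Q.totalDegree + 1)
  · conv_lhs => rw [h1]
    rw [Finset.sum_eq_single (e - d)]
    · rw [if_pos (by omega)]
    · intro j _ hj
      rw [if_neg (by omega)]
    · intro h
      exact absurd hm h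
  · exfalso
    apply hH0
    rw [h1]
    refine Finset.sum_eq_zero fun j hj => ?_
    rw [if_neg]
    intro h
    apply hm
    have : j = e - d := by omega
    rw [← this]
    exact hj

variable {n d : ℕ} {F : MvPolynomial (Fin n) ℂ} {M : Type} [Field M] [Algebra ℂ M]

theorem eval_aeval (Y : Fin n → Polynomial M) (t : M) (H : MvPolynomial (Fin n) ℂ) :
    (aeval Y H).eval t = aeval (fun i => (Y i).eval t) H := by
  have h := comp_aeval_apply (f := Y) ((Polynomial.aeval t).restrictScalars ℂ) H
  have h1 : ∀ q : Polynomial M, ((Polynomial.aeval t).restrictScalars ℂ : _ →ₐ[ℂ] M) q =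
      q.eval t := by
    intro q
    change Polynomial.aeval t q = _
    rw [Polynomial.coe_aeval_eq_eval]
  rw [h1] at h
  rw [h]
  congr 2

/-- a line through the generic point of a hypersurface, which is not contained in it: the generic
point of the line is a generic point of the projective space -/
theorem generic_line (hF : F.IsHomogeneous d) (hd : 1 ≤ d) (x : Fin n → M)
    (hgen : ∀ (e : ℕ) (H : MvPolynomial (Fin n) ℂ), H.IsHomogeneous e → aeval x H = 0 → F ∣ H)
    (Y : Fin n → Polynomial M) (hY : ∀ i, (Y i).eval 0 = x i) (hFY : aeval Y F ≠ 0) :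
    ∀ (e : ℕ) (H : MvPolynomial (Fin n) ℂ), H.IsHomogeneous e → aeval Y H = 0 → H = 0 := by
  intro e
  induction e using Nat.strong_induction_on with
  | _ e ih =>
    intro H hH h0
    by_contra hH0
    have h1 : aeval x H = 0 := by
      have h2 : (aeval Y H).eval 0 = aeval x H := by
        rw [eval_aeval]
        congr 2
        funext i
        exact hY i
      rw [← h2, h0, Polynomial.eval_zero]
    obtain ⟨Q, hQ⟩ := hgen e H hH h1
    obtain ⟨hde, Q', hQ', hHQ⟩ := exists_form_quot hF hH hQ hH0
    rw [hHQ, map_mul] at h0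
    have h2 : Q' = 0 := ih (e - d) (by omega) Q' hQ' ((mul_eq_zero.1 h0).resolve_left hFY)
    apply hH0
    rw [hHQ, h2, mul_zero]

/-- the equations of the polar for a line which meets the hypersurface in a further point only -/
theorem polar_of_line (hF : F.IsHomogeneous d) (hd : 3 ≤ d) (x p : Fin n → M) (c : M)
    (h : aeval (fun j => Polynomial.C (x j) + Polynomial.X * Polynomial.C (p j)) F =
      Polynomial.C c * Polynomial.X) :
    aeval p F = 0 ∧ ∑ i, x i * aeval p (pderiv i F) = 0 := by
  classical
  set E := FractionRing (Polynomial M) with hE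
  set ι : Polynomial M →+* E := algebraMap (Polynomial M) E with hι
  have hinj : Function.Injective ι := IsFractionRing.injective (Polynomial M) E
  set X' : Polynomial M := Polynomial.X with hX'
  have hX0 : ι X' ≠ 0 := by
    intro h0
    exact Polynomial.X_ne_zero (hinj (h0.trans (map_zero ι).symm))
  -- the substitution `X ↦ 1 / X`
  let φ : Polynomial M →ₐ[M] E := Polynomial.aeval (ι X')⁻¹
  have hφC : ∀ a, φ (Polynomial.C a) = ι (Polynomial.C a) := by
    intro a
    change Polynomial.aeval (ι X')⁻¹ (Polynomial.C a) = _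
    rw [Polynomial.aeval_C]
    rfl
  have hφX : φ Polynomial.X = (ι X')⁻¹ := Polynomial.aeval_X _
  let φ' : Polynomial M →ₐ[ℂ] E := φ.restrictScalars ℂ
  have hφ' : ∀ q, φ' q = φ q := fun _ => rfl
  let ι' : Polynomial M →ₐ[ℂ] E := IsScalarTower.toAlgHom ℂ (Polynomial M) E
  have hι' : ∀ q, ι' q = ι q := fun _ => rfl
  have h1 : aeval (fun j => ι (Polynomial.C (x j)) + (ι X')⁻¹ * ι (Polynomial.C (p j))) F =
      ι (Polynomial.C c) * (ι X')⁻¹ := by
    have h2 := congrArg φ' h
    rw [comp_aeval_apply, hφ' (Polynomial.C c * _), map_mul, hφC, hφX] at h2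
    rw [← h2]
    congr 2
    funext j
    rw [hφ', map_add, map_mul, hφC, hφC, hφX]
  have h3 : aeval (fun j => Polynomial.C (p j) + Polynomial.X * Polynomial.C (x j)) F =
      Polynomial.C c * Polynomial.X ^ (d - 1) := by
    apply hinj
    have h4 := aeval_smul_form hF (ι X')
      (fun j => ι (Polynomial.C (x j)) + (ι X')⁻¹ * ι (Polynomial.C (p j)))
    rw [h1] at h4
    rw [← hι', comp_aeval_apply]
    have h5 : (fun j => ι' (Polynomial.C (p j) + Polynomial.X * Polynomial.C (x j))) =
        fun j => ι X' * (ι (Polynomial.C (x j)) + (ι X')⁻¹ * ι (Polynomial.C (p j))) := by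
      funext j
      rw [hι', map_add, map_mul]
      change _ + ι X' * _ = _
      rw [mul_add, ← mul_assoc, mul_inv_cancel₀ hX0, one_mul, add_comm]
    rw [h5, h4, map_mul, map_pow]
    change _ = _ * ι X' ^ (d - 1)
    obtain ⟨k, rfl⟩ := Nat.exists_eq_add_of_le' hd
    have h6 : k + 3 - 1 = k + 2 := by omega
    rw [h6, pow_succ (ι X') (k + 2), mul_assoc, mul_left_comm (ι X') (ι (Polynomial.C c)),
      mul_inv_cancel₀ hX0, mul_one, mul_comm]
  set Z : Fin n → Polynomial M := fun j =>
    Polynomial.C (p j) + Polynomial.X * Polynomial.C (x j) with hZ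
  have hev : ∀ H : MvPolynomial (Fin n) ℂ, (aeval Z H).eval 0 = aeval p H := by
    intro H
    rw [eval_aeval]
    congr 2
    funext i
    simp [hZ]
  constructor
  · rw [← hev, h3]
    simp
    right
    omega
  · have h4 := chain_rule ((Polynomial.derivative' : Derivation M (Polynomial M)
      (Polynomial M)).restrictScalars ℂ) Z F
    rw [h3] at h4
    have h5 : ((Polynomial.derivative' : Derivation M (Polynomial M)
        (Polynomial M)).restrictScalars ℂ) (Polynomial.C c * Polynomial.X ^ (d - 1)) =
        Polynomial.derivative (Polynomial.C c * Polynomial.X ^ (d - 1)) := rfl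
    rw [h5, Polynomial.derivative_C_mul, Polynomial.derivative_X_pow] at h4
    have h6 := congrArg (Polynomial.eval 0) h4
    rw [Polynomial.eval_finsetSum] at h6
    simp only [Polynomial.eval_mul, Polynomial.eval_C, Polynomial.eval_pow,
      Polynomial.eval_X] at h6
    rw [zero_pow (by omega : d - 1 - 1 ≠ 0), mul_zero, mul_zero] at h6
    rw [h6]
    refine Finset.sum_congr rfl fun i _ => ?_
    rw [hev]
    have h7 : (((Polynomial.derivative' : Derivation M (Polynomial M)
        (Polynomial M)).restrictScalars ℂ) (Z i)) = Polynomial.derivative (Z i) := rfl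
    rw [h7]
    have h8 : Polynomial.derivative (Z i) = Polynomial.C (x i) := by
      rw [hZ]
      simp
    rw [h8, Polynomial.eval_C, mul_comm]

end Pool.Agent.R845.T2
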