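import Mathlib
import Pool.Agent.R845.T2.Gen
import Pool.Agent.Y929.LI.Fa

/-! # Project T2: the places of the function field of a line which are trivial on the constants -/

set_option autoImplicit false

namespace Pool.Agent.R845.T2

open MvPolynomial Pool.Agent.TH314.PD Module FF IsDedekindDomain

noncomputable section

variable (M : Type) [Field M] [Algebra ℂ M]

/-- the function field of the line -/
abbrev LF : Type := FractionRing (Polynomial M)

/-- the prime of the origin -/
def pr0 : HeightOneSpectrum (Polynomial M) where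
  asIdeal := Ideal.span {Polynomial.X}
  isPrime := by
    rw [Ideal.span_singleton_prime Polynomial.X_ne_zero]
    exact Polynomial.prime_X
  ne_bot := by
    rw [Ne, Ideal.span_singleton_eq_bot]
    exact Polynomial.X_ne_zero

/-- the place of the origin -/
def w0 : Place ℂ (LF M) := placeOf (k := ℂ) (L := LF M) (pr0 M)

variable {M}

theorem mem_pr0 (b : Polynomial M) : b ∈ (pr0 M).asIdeal ↔ b.eval 0 = 0 := by
  change b ∈ Ideal.span {Polynomial.X} ↔ _
  rw [Ideal.mem_span_singleton, Polynomial.X_dvd_iff, Polynomial.coeff_zero_eq_eval_zero]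

theorem w0_reg (b : Polynomial M) : (w0 M).Reg (algebraMap (Polynomial M) (LF M) b) :=
  placeOf_reg (pr0 M) b

theorem w0_red_eq_zero (b : Polynomial M) :
    (w0 M).red (algebraMap (Polynomial M) (LF M) b) = 0 ↔ b.eval 0 = 0 := by
  rw [← mem_pr0]
  exact placeOf_red_eq_zero (pr0 M) b

theorem inj_LF : Function.Injective (algebraMap (Polynomial M) (LF M)) :=
  IsFractionRing.injective (Polynomial M) (LF M)

theorem w0_ord_of_eval {b : Polynomial M} (hb : b.eval 0 ≠ 0) :
    (w0 M).ord (algebraMap (Polynomial M) (LF M) b) = 0 := by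
  have h1 := (w0_red_eq_zero b).not.2 hb
  rw [Place.red_eq_zero_iff _ (w0_reg b)] at h1
  push Not at h1
  have h2 := ((w0 M).reg_iff h1.1).1 (w0_reg b)
  omega

theorem w0_ord_X : (w0 M).ord (algebraMap (Polynomial M) (LF M) Polynomial.X) = 1 := by
  unfold w0
  rw [placeOf_ord, HeightOneSpectrum.valuation_of_algebraMap,
    (pr0 M).intValuation_singleton Polynomial.X_ne_zero rfl, WithZero.log_exp]
  simp

/-- a place which is trivial on the constants and positive on the parameter -/
theorem eq_w0 (w : Place ℂ (LF M))
    (hM : ∀ a : M, a ≠ 0 → w.ord (algebraMap (Polynomial M) (LF M) (Polynomial.C a)) = 0)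
    (hX : 0 < w.ord (algebraMap (Polynomial M) (LF M) Polynomial.X)) : w = w0 M := by
  have hreg : ∀ b : Polynomial M, w.Reg (algebraMap (Polynomial M) (LF M) b) := by
    intro b
    induction b using Polynomial.induction_on' with
    | add p q hp hq =>
      rw [map_add]
      exact w.reg_add hp hq
    | monomial n a =>
      rw [← Polynomial.C_mul_X_pow_eq_monomial, map_mul, map_pow]
      refine w.reg_mul ?_ ?_
      · by_cases ha : a = 0
        · left
          rw [ha, Polynomial.C_0, map_zero]
        · right
          exact (hM a ha).ge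
      · right
        rw [w.ord_pow]
        positivity
  obtain ⟨P, hP⟩ := exists_placeOf_eq (B := Polynomial M) w hreg
  have h1 : w.red (algebraMap (Polynomial M) (LF M) Polynomial.X) = 0 := by
    rw [Place.red_eq_zero_iff _ (hreg _)]
    exact Or.inr hX
  rw [← hP] at h1
  have h2 : (Polynomial.X : Polynomial M) ∈ P.asIdeal :=
    (placeOf_red_eq_zero (k := ℂ) (L := LF M) P Polynomial.X).1 h1
  have h3 : P = pr0 M := by
    ext1
    have h4 : (pr0 M).asIdeal ≤ P.asIdeal := by
      change Ideal.span {Polynomial.X} ≤ _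
      rw [Ideal.span_singleton_le_iff_mem]
      exact h2
    exact ((pr0 M).isMaximal.eq_of_le P.isPrime.ne_top h4).symm
  rw [← hP, h3]
  rfl

/-- the residue map of the place of the origin on the constants -/
def ev0 : M →ₐ[ℂ] (w0 M).RF where
  toFun a := (w0 M).red (algebraMap (Polynomial M) (LF M) (Polynomial.C a))
  map_one' := by rw [Polynomial.C_1, map_one, Place.red_one]
  map_mul' a b := by rw [Polynomial.C_mul, map_mul, Place.red_mul _ (w0_reg _) (w0_reg _)]
  map_zero' := by rw [Polynomial.C_0, map_zero, Place.red_zero]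
  map_add' a b := by rw [Polynomial.C_add, map_add, Place.red_add _ (w0_reg _) (w0_reg _)]
  commutes' c := by
    rw [Place.algebraMap_RF]
    congr 1

theorem red_w0 (b : Polynomial M) :
    (w0 M).red (algebraMap (Polynomial M) (LF M) b) = ev0 (b.eval 0) := by
  have h1 : (w0 M).red (algebraMap (Polynomial M) (LF M) (b - Polynomial.C (b.eval 0))) = 0 := by
    rw [w0_red_eq_zero]
    simp
  rw [map_sub, Place.red_sub _ (w0_reg _) (w0_reg _), sub_eq_zero] at h1
  exact h1

theorem ev0_bij : Function.Bijective (ev0 : M →ₐ[ℂ] (w0 M).RF) := by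
  constructor
  · exact (ev0 : M →ₐ[ℂ] (w0 M).RF).toRingHom.injective
  · intro c
    obtain ⟨b, hb⟩ := placeOf_redHom_surjective (k := ℂ) (L := LF M) (pr0 M) c
    refine ⟨b.eval 0, ?_⟩
    rw [← red_w0, ← hb]
    rfl

/-- the degree over the ratio field does not change under an isomorphism -/
theorem finrank_ratioField_equiv {K K' : Type} [Field K] [Field K'] [Algebra ℂ K] [Algebra ℂ K']
    (e : K ≃ₐ[ℂ] K') {n : ℕ} (x : Fin n → K) :
    finrank (ratioField fun i => e (x i)) K' = finrank (ratioField x) K := by
  have hmap : (ratioField x).map e.toAlgHom = ratioField fun i => e (x i) := by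
    unfold ratioField
    rw [IntermediateField.adjoin_map]
    congr 1
    ext z
    constructor
    · rintro ⟨_, ⟨i, j, rfl⟩, rfl⟩
      exact ⟨i, j, by simp⟩
    · rintro ⟨i, j, rfl⟩
      exact ⟨x i / x j, ⟨i, j, rfl⟩, by simp⟩
  rw [← hmap]
  symm
  refine Algebra.finrank_eq_of_equiv_equiv
    ((ratioField x).equivMap e.toAlgHom).toRingEquiv e.toRingEquiv ?_
  ext c
  rfl

end

end Pool.Agent.R845.T2
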