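import Mathlib
import Pool.Agent.R845.T2.Stm

/-! # Project T2: finiteness by transcendence degree -/

set_option autoImplicit false

namespace Pool.Agent.R845.T2

open MvPolynomial Pool.Agent.TH314.PD IntermediateField Module

noncomputable section

namespace Fd

variable {r : ℕ} {K : Type} [Field K] [Algebra ℂ K]

/-- generators of the field of ratios -/
lemma ratioField_eq (z : Fin (r + 1) → K) {b : Fin (r + 1)} (hb : z b ≠ 0) :
    ratioField z = IntermediateField.adjoin ℂ
      (Set.range fun l : Fin r => z (b.succAbove l) / z b) := by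
  set s : Set K := Set.range fun l : Fin r => z (b.succAbove l) / z b with hs
  have hgen : ∀ i, z i / z b ∈ IntermediateField.adjoin ℂ s := by
    intro i
    by_cases hi : i = b
    · rw [hi, div_self hb]
      exact one_mem _
    · obtain ⟨l, rfl⟩ := Fin.exists_succAbove_eq hi
      exact IntermediateField.subset_adjoin _ _ ⟨l, rfl⟩
  apply le_antisymm
  · refine IntermediateField.adjoin_le_iff.2 ?_
    rintro w ⟨i, j, rfl⟩
    have : z i / z j = (z i / z b) / (z j / z b) := by
      rw [div_div_div_cancel_right₀ hb]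
    rw [this]
    exact div_mem (hgen i) (hgen j)
  · refine IntermediateField.adjoin_le_iff.2 ?_
    rintro w ⟨l, rfl⟩
    exact IntermediateField.subset_adjoin _ _ ⟨_, _, rfl⟩

/-- evaluation of a form at a point with nonzero coordinate `b` -/
lemma aeval_form {F : MvPolynomial (Fin (r + 1)) ℂ} {d : ℕ} (hF : F.IsHomogeneous d)
    (z : Fin (r + 1) → K) {b : Fin (r + 1)} (hb : z b ≠ 0) :
    aeval z F = z b ^ d * aeval (fun l : Fin r => z (b.succAbove l) / z b)
      (aeval (b.insertNth (1 : MvPolynomial (Fin r) ℂ) X : Fin (r + 1) → _) F) := by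
  have h1 : z = fun i => z b * (z i / z b) := by
    funext i
    field_simp
  have h2 : aeval (fun l : Fin r => z (b.succAbove l) / z b)
      (aeval (b.insertNth (1 : MvPolynomial (Fin r) ℂ) X : Fin (r + 1) → _) F) =
      aeval (fun i => z i / z b) F := by
    have : ((aeval (fun l : Fin r => z (b.succAbove l) / z b)).comp
      (aeval (b.insertNth (1 : MvPolynomial (Fin r) ℂ) X :
        Fin (r + 1) → MvPolynomial (Fin r) ℂ)) : MvPolynomial (Fin (r + 1)) ℂ →ₐ[ℂ] K) =
        aeval (fun i => z i / z b) := by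
      apply algHom_ext
      intro i
      rw [AlgHom.comp_apply, aeval_X, aeval_X]
      rcases Fin.eq_self_or_eq_succAbove b i with h | ⟨l, rfl⟩
      · rw [h, Fin.insertNth_apply_same, map_one, div_self hb]
      · rw [Fin.insertNth_apply_succAbove, aeval_X]
    rw [← this, AlgHom.comp_apply]
  rw [h2]
  conv_lhs => rw [h1]
  exact aeval_smul_form hF _ _

/-- algebraically independent ratios satisfy no form -/
lemma eq_zero_of_indep {F : MvPolynomial (Fin (r + 1)) ℂ} {d : ℕ} (hF : F.IsHomogeneous d)
    (z : Fin (r + 1) → K) {b : Fin (r + 1)} (hb : z b ≠ 0)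
    (hind : AlgebraicIndependent ℂ fun l : Fin r => z (b.succAbove l) / z b)
    (h0 : aeval z F = 0) : F = 0 := by
  rw [aeval_form hF z hb] at h0
  have h1 := (mul_eq_zero.1 h0).resolve_left (pow_ne_zero _ hb)
  have h2 := (algebraicIndependent_iff.1 hind) _ h1
  -- go back to the generic point
  let al : MvPolynomial (Fin (r + 1)) ℂ →ₐ[ℂ] FractionRing (MvPolynomial (Fin (r + 1)) ℂ) :=
    IsScalarTower.toAlgHom ℂ _ _
  have hal : Function.Injective al :=
    IsFractionRing.injective (MvPolynomial (Fin (r + 1)) ℂ) _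
  have h3 : aeval (fun i => al (X i)) F = al F := by
    have : (aeval (fun i => al (X i)) : MvPolynomial (Fin (r + 1)) ℂ →ₐ[ℂ] _) = al := by
      apply algHom_ext
      intro i
      rw [aeval_X]
    rw [this]
  have hbX : al (X b) ≠ 0 := by
    intro h
    exact X_ne_zero b (hal (by rw [h, map_zero]))
  have h4 := aeval_form hF (fun i => al (X i)) hbX
  rw [h2, map_zero, mul_zero, h3] at h4
  exact hal (by rw [h4, map_zero])

/-- generic ratios are algebraically independent -/
lemma indep_of_generic (y : Fin (r + 1) → K)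
    (hy : ∀ (e : ℕ) (H : MvPolynomial (Fin (r + 1)) ℂ), H.IsHomogeneous e → aeval y H = 0 →
      H = 0) :
    y 0 ≠ 0 ∧ AlgebraicIndependent ℂ fun l : Fin r => y ((0 : Fin (r + 1)).succAbove l) / y 0 := by
  have hy0 : y 0 ≠ 0 := by
    intro h
    exact X_ne_zero (0 : Fin (r + 1)) (hy 1 (X 0) (isHomogeneous_X _ _) (by rw [aeval_X, h]))
  refine ⟨hy0, ?_⟩
  rw [algebraicIndependent_iff]
  intro A hA
  obtain ⟨A', hA'h, hA'⟩ := homogenize A
  have h1 : aeval y A' = 0 := by
    have h2 : y = fun i => y 0 * (Fin.cons 1 (fun l : Fin r =>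
        y ((0 : Fin (r + 1)).succAbove l) / y 0) : Fin (r + 1) → K) i := by
      funext i
      refine Fin.cases ?_ (fun l => ?_) i
      · rw [Fin.cons_zero, mul_one]
      · rw [Fin.cons_succ, Fin.zero_succAbove]
        field_simp
    rw [h2, aeval_smul_form hA'h, hA', hA, mul_zero]
  have h2 : A' = 0 := hy _ _ hA'h h1
  have h3 := hA' (X : Fin r → MvPolynomial (Fin r) ℂ)
  rw [h2, map_zero, aeval_X_left_apply] at h3
  exact h3.symm

/-- the field of ratios of a point of a hypersurface has small transcendence degree -/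
lemma trdeg_lt {F : MvPolynomial (Fin (r + 1)) ℂ} {d : ℕ} (hF : F.IsHomogeneous d) (hF0 : F ≠ 0)
    (x : Fin (r + 1) → K) {b : Fin (r + 1)} (hb : x b ≠ 0) (hx : aeval x F = 0)
    [Algebra.IsAlgebraic (ratioField x) K] : Algebra.trdeg ℂ K < r := by
  by_contra hcon
  push Not at hcon
  have halg : Algebra.IsAlgebraic (ratioField x) K := inferInstance
  rw [ratioField_eq x hb] at halg
  have h1 := IntermediateField.isAlgebraic_adjoin_iff_top.1 halg
  have h2 := Algebra.IsAlgebraic.isTranscendenceBasis_of_le_trdeg_of_finite ℂ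
    (fun l : Fin r => x (b.succAbove l) / x b) (by simpa using hcon)
  exact hF0 (eq_zero_of_indep hF x hb h2.1 hx)

end Fd

open Fd in
theorem fd : S_FD := by
  intro r d F hF hF0 M E _ _ _ _ _ _ x hxb hx hfin s hs y hy
  obtain ⟨b, hb⟩ := hxb
  have h1 : Algebra.trdeg ℂ M < r := trdeg_lt hF hF0 x hb hx
  have h2 : Algebra.trdeg ℂ M + Algebra.trdeg M E = Algebra.trdeg ℂ E :=
    trdeg_add_eq ℂ M
  -- `E` is algebraic over `M[s]`
  have h3 : Algebra.trdeg M E ≤ 1 := by
    have h4 : Algebra.IsAlgebraic (IntermediateField.adjoin M {s}) E := by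
      rw [hs]
      exact ⟨fun z => isAlgebraic_algebraMap (⟨z, IntermediateField.mem_top⟩ :
        (⊤ : IntermediateField M E))⟩
    have h5 := IntermediateField.isAlgebraic_adjoin_iff_top.1 h4
    have h6 := Algebra.IsAlgebraic.trdeg_le_cardinalMk M ({s} : Set E)
    simpa using h6
  have h7 : Algebra.trdeg ℂ E ≤ r := by
    obtain ⟨n, hn⟩ := Cardinal.lt_aleph0.1 (h1.trans (Cardinal.natCast_lt_aleph0))
    rw [← h2, hn]
    rw [hn] at h1
    have hnr : n < r := by exact_mod_cast h1
    calc (n : Cardinal) + Algebra.trdeg M E ≤ n + 1 := by gcongr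
      _ ≤ r := by exact_mod_cast hnr
  obtain ⟨hy0, hind⟩ := indep_of_generic y hy
  have h8 := hind.isTranscendenceBasis_of_trdeg_le_of_finite (by simpa using h7)
  have h9 : Algebra.IsAlgebraic (ratioField y) E := by
    rw [ratioField_eq y hy0]
    exact h8.isAlgebraic_field
  -- finite generation
  have g1 : Algebra.EssFiniteType ℂ (ratioField x) := by
    rw [IntermediateField.essFiniteType_iff, ratioField_eq x hb]
    exact IntermediateField.fg_adjoin_of_finite (Set.finite_range _)
  have g2 : Algebra.EssFiniteType (ratioField x) M := inferInstance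
  have g3 : Algebra.EssFiniteType ℂ M := Algebra.EssFiniteType.comp ℂ (ratioField x) M
  have g4 : Algebra.EssFiniteType M E := by
    rw [← IntermediateField.fg_top_iff, ← hs]
    exact IntermediateField.fg_adjoin_of_finite (Set.finite_singleton s)
  have g5 : Algebra.EssFiniteType ℂ E := Algebra.EssFiniteType.comp ℂ M E
  have g6 : Algebra.EssFiniteType (ratioField y) E := Algebra.EssFiniteType.of_comp ℂ _ E
  exact Algebra.finite_of_essFiniteType_of_isAlgebraic

end

end Pool.Agent.R845.T2
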