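import Mathlib
import Pool.Agent.R845.T2.Stm

/-! Job T2-FI: the fundamental identity for the places over the generic point of `X` -/

set_option autoImplicit false
set_option linter.all false

namespace Pool.Agent.R845.T2.FI

open MvPolynomial Pool.Agent.TH314.PD IntermediateField Module FF

noncomputable section

section hom

variable {r : ℕ}

/-- dehomogenisation -/
def dh : MvPolynomial (Fin (r + 1)) ℂ →ₐ[ℂ] MvPolynomial (Fin r) ℂ := aeval (Fin.cons 1 X)

/-- homogenisation in degree `n` -/
def hm (n : ℕ) (P : MvPolynomial (Fin r) ℂ) : MvPolynomial (Fin (r + 1)) ℂ :=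
  ∑ k ∈ Finset.range (n + 1), X 0 ^ (n - k) * rename Fin.succ (homogeneousComponent k P)

lemma hm_hom (n : ℕ) (P : MvPolynomial (Fin r) ℂ) : (hm n P).IsHomogeneous n := by
  apply IsHomogeneous.sum
  intro k hk
  have hk' : k ≤ n := by
    have := Finset.mem_range.mp hk
    omega
  have h := ((isHomogeneous_X ℂ (0 : Fin (r + 1))).pow (n - k)).mul
    ((homogeneousComponent_isHomogeneous k P).rename_isHomogeneous (f := Fin.succ))
  have e : 1 * (n - k) + k = n := by omega
  rwa [e] at h

lemma dh_rename (Q : MvPolynomial (Fin r) ℂ) : dh (rename Fin.succ Q) = Q := by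
  unfold dh
  rw [aeval_rename]
  have : (Fin.cons 1 X : Fin (r + 1) → MvPolynomial (Fin r) ℂ) ∘ Fin.succ = X := by
    funext i
    simp
  rw [this, aeval_X_left_apply]

lemma dh_X0 : dh (X 0 : MvPolynomial (Fin (r + 1)) ℂ) = 1 := by
  unfold dh
  rw [aeval_X]; rfl

lemma dh_hm {n : ℕ} {P : MvPolynomial (Fin r) ℂ} (h : P.totalDegree ≤ n) : dh (hm n P) = P := by
  unfold hm
  rw [map_sum]
  have h1 : ∀ k ∈ Finset.range (n + 1), dh (X 0 ^ (n - k) * rename Fin.succ (homogeneousComponent k P))
      = homogeneousComponent k P := by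
    intro k _
    rw [map_mul, map_pow, dh_X0, dh_rename, one_pow, one_mul]
  rw [Finset.sum_congr rfl h1]
  conv_rhs => rw [← sum_homogeneousComponent P]
  symm
  apply Finset.sum_subset
  · intro k hk
    have := Finset.mem_range.mp hk
    exact Finset.mem_range.mpr (by omega)
  · intro k _ hk
    have : P.totalDegree < k := by
      by_contra hc
      exact hk (Finset.mem_range.mpr (by omega))
    exact homogeneousComponent_eq_zero _ _ this

lemma aeval_scale {K : Type*} [CommRing K] [Algebra ℂ K] {m : ℕ} {H : MvPolynomial (Fin m) ℂ} {e : ℕ}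
    (hH : H.IsHomogeneous e) (c : K) (x : Fin m → K) :
    aeval (fun i => c * x i) H = c ^ e * aeval x H := by
  rw [aeval_def, eval₂_eq', aeval_def, eval₂_eq', Finset.mul_sum]
  refine Finset.sum_congr rfl fun s hs => ?_
  have h1 : ∑ i, s i = e := by
    have h2 := hH (mem_support_iff.mp hs)
    rw [← h2, Finsupp.weight_apply, Finsupp.sum_fintype _ _ (by simp)]
    simp
  have h3 : ∏ i, (c * x i) ^ s i = c ^ e * ∏ i, x i ^ s i := by
    simp_rw [mul_pow]
    rw [Finset.prod_mul_distrib, Finset.prod_pow_eq_pow_sum, h1]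
  rw [h3]; ring

end hom

section gen

variable {r : ℕ} {E : Type} [Field E] [Algebra ℂ E] {y : Fin (r + 1) → E}

/-- genericity -/
def Gen (y : Fin (r + 1) → E) : Prop :=
  ∀ (e : ℕ) (H : MvPolynomial (Fin (r + 1)) ℂ), H.IsHomogeneous e → aeval y H = 0 → H = 0

lemma y0_ne (hy : Gen y) : y 0 ≠ 0 := by
  intro h
  have := hy 1 (X 0) (isHomogeneous_X _ _) (by rw [aeval_X]; exact h)
  exact X_ne_zero (R := ℂ) (0 : Fin (r + 1)) this

/-- the affine coordinates -/
def f (y : Fin (r + 1) → E) : MvPolynomial (Fin r) ℂ →ₐ[ℂ] E := aeval (fun i => y i.succ / y 0)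

lemma f_dh (h0 : y 0 ≠ 0) (H : MvPolynomial (Fin (r + 1)) ℂ) :
    f y (dh H) = aeval (fun i => y i / y 0) H := by
  have : (f y).comp dh = aeval (fun i => y i / y 0) := by
    apply MvPolynomial.algHom_ext
    intro i
    rw [AlgHom.comp_apply, aeval_X]
    unfold dh f
    rw [aeval_X]
    cases i using Fin.cases with
    | zero => simp [div_self h0]
    | succ i => simp
  rw [← this]; rfl

lemma aeval_y (h0 : y 0 ≠ 0) {H : MvPolynomial (Fin (r + 1)) ℂ} {e : ℕ} (hH : H.IsHomogeneous e) :
    aeval y H = y 0 ^ e * aeval (fun i => y i / y 0) H := by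
  rw [← aeval_scale hH]
  congr 1
  congr 1
  funext i
  field_simp

lemma aeval_y' (h0 : y 0 ≠ 0) {H : MvPolynomial (Fin (r + 1)) ℂ} {e : ℕ} (hH : H.IsHomogeneous e) :
    aeval y H = y 0 ^ e * f y (dh H) := by
  rw [f_dh h0, aeval_y h0 hH]

lemma dh_inj (hy : Gen y) {H : MvPolynomial (Fin (r + 1)) ℂ} {e : ℕ} (hH : H.IsHomogeneous e)
    (h : f y (dh H) = 0) : H = 0 := by
  refine hy e H hH ?_
  rw [aeval_y' (y0_ne hy) hH, h, mul_zero]

lemma f_inj (hy : Gen y) : Function.Injective (f y) := by
  rw [injective_iff_map_eq_zero]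
  intro P hP
  have h1 := dh_hm (le_refl P.totalDegree)
  rw [← h1] at hP
  have h2 := dh_inj hy (hm_hom _ _) hP
  rw [← h1, h2, map_zero]

/-- homogeneous forms of the same degree with the same dehomogenisation are equal -/
lemma hom_eq (hy : Gen y) {H H' : MvPolynomial (Fin (r + 1)) ℂ} {e : ℕ} (hH : H.IsHomogeneous e)
    (hH' : H'.IsHomogeneous e) (h : dh H = dh H') : H = H' := by
  rw [← sub_eq_zero]
  refine dh_inj hy (hH.sub hH') ?_
  rw [map_sub, h, sub_self, map_zero]

variable {d : ℕ} {F : MvPolynomial (Fin (r + 1)) ℂ}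

lemma not_dvd_X0 (hF : F.IsHomogeneous d) (hd : 2 ≤ d) (hirr : Irreducible F) (a : ℕ) :
    ¬ F ∣ (X 0 : MvPolynomial (Fin (r + 1)) ℂ) ^ a := by
  intro h
  have hp : Prime F := hirr.prime
  have h1 := hp.dvd_of_dvd_pow h
  obtain ⟨G, hG⟩ := h1
  have hX : (X 0 : MvPolynomial (Fin (r + 1)) ℂ) ≠ 0 := X_ne_zero _
  have hG0 : G ≠ 0 := by rintro rfl; rw [mul_zero] at hG; exact hX hG
  have h2 := congrArg totalDegree hG
  rw [totalDegree_X, totalDegree_mul_of_isDomain hp.ne_zero hG0, hF.totalDegree hp.ne_zero] at h2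
  omega

/-- divisibility by the dehomogenised equation -/
lemma dvd_iff (hy : Gen y) (hF : F.IsHomogeneous d) (hd : 2 ≤ d) (hirr : Irreducible F)
    {H : MvPolynomial (Fin (r + 1)) ℂ} {e : ℕ} (hH : H.IsHomogeneous e) :
    dh F ∣ dh H ↔ F ∣ H := by
  constructor
  · rintro ⟨T, hT⟩
    have hT' := dh_hm (le_refl T.totalDegree)
    set n := T.totalDegree with hn
    have h1 : dh (X 0 ^ (d + n) * H) = dh (X 0 ^ e * (F * hm n T)) := by
      rw [map_mul, map_pow, dh_X0, one_pow, one_mul, map_mul, map_pow, dh_X0, one_pow, one_mul,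
        map_mul, hT', hT]
    have h2 : (X 0 ^ (d + n) * H : MvPolynomial (Fin (r + 1)) ℂ).IsHomogeneous (d + n + e) := by
      have := ((isHomogeneous_X ℂ (0 : Fin (r + 1))).pow (d + n)).mul hH
      rwa [one_mul] at this
    have h3 : (X 0 ^ e * (F * hm n T) : MvPolynomial (Fin (r + 1)) ℂ).IsHomogeneous (d + n + e) := by
      have := ((isHomogeneous_X ℂ (0 : Fin (r + 1))).pow e).mul (hF.mul (hm_hom n T))
      rw [one_mul] at this
      rwa [show e + (d + n) = d + n + e by ring] at this
    have h4 := hom_eq hy h2 h3 h1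
    have h5 : F ∣ X 0 ^ (d + n) * H := ⟨X 0 ^ e * hm n T, by rw [h4]; ring⟩
    exact (hirr.prime.dvd_or_dvd h5).resolve_left (not_dvd_X0 hF hd hirr _)
  · rintro ⟨G, rfl⟩
    exact ⟨dh G, by rw [map_mul]⟩

lemma prime_dh (hy : Gen y) (hF : F.IsHomogeneous d) (hd : 2 ≤ d) (hirr : Irreducible F) :
    Prime (dh F) := by
  refine ⟨?_, ?_, ?_⟩
  · intro h
    refine hirr.ne_zero (dh_inj hy hF ?_)
    rw [h, map_zero]
  · intro h
    have h1 : dh F ∣ dh (1 : MvPolynomial (Fin (r + 1)) ℂ) := by
      rw [map_one]; exact h.dvd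
    have h2 := (dvd_iff hy hF hd hirr (isHomogeneous_one _ _)).mp h1
    exact not_dvd_X0 hF hd hirr 0 (by rwa [pow_zero])
  · intro P Q h
    have hP := dh_hm (le_refl P.totalDegree)
    have hQ := dh_hm (le_refl Q.totalDegree)
    rw [← hP, ← hQ, ← map_mul, dvd_iff hy hF hd hirr ((hm_hom _ _).mul (hm_hom _ _))] at h
    rcases hirr.prime.dvd_or_dvd h with h1 | h1
    · left
      rw [← hP]
      exact (dvd_iff hy hF hd hirr (hm_hom _ _)).mpr h1
    · right
      rw [← hQ]
      exact (dvd_iff hy hF hd hirr (hm_hom _ _)).mpr h1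

lemma f_mem (h0 : y 0 ≠ 0) (P : MvPolynomial (Fin r) ℂ) : f y P ∈ ratioField y := by
  have : ∀ i, y (Fin.succ i) / y 0 ∈ ratioField y := fun i => IntermediateField.subset_adjoin _ _ ⟨_, _, rfl⟩
  unfold f
  induction P using MvPolynomial.induction_on with
  | C a => rw [aeval_C]; exact (ratioField y).algebraMap_mem a
  | add p q hp hq => rw [map_add]; exact add_mem hp hq
  | mul_X p i hp => rw [map_mul, aeval_X]; exact mul_mem hp (this i)

/-- elements of the field of ratios -/
lemma exists_form {m : ℕ} (q : Fin m → E) (z : E) (hz : z ∈ ratioField q) :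
    ∃ (D : ℕ) (P Q : MvPolynomial (Fin m) ℂ), P.IsHomogeneous D ∧ Q.IsHomogeneous D ∧
      aeval q Q ≠ 0 ∧ aeval q P = aeval q Q * z := by
  unfold ratioField at hz
  induction hz using IntermediateField.adjoin_induction with
  | mem z hz =>
    obtain ⟨i, j, rfl⟩ := hz
    by_cases h : q j = 0
    · refine ⟨0, 0, 1, isHomogeneous_zero _ _ _, isHomogeneous_one _ _, by simp, by simp [h]⟩
    · refine ⟨1, X i, X j, isHomogeneous_X _ _, isHomogeneous_X _ _, by simpa using h, ?_⟩
      rw [aeval_X, aeval_X]
      field_simp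
  | algebraMap a =>
    exact ⟨0, C a, 1, isHomogeneous_C _ _, isHomogeneous_one _ _, by simp, by simp⟩
  | add z w _ _ ihz ihw =>
    obtain ⟨D, P, Q, h1, h2, h3, h4⟩ := ihz
    obtain ⟨D', P', Q', h1', h2', h3', h4'⟩ := ihw
    refine ⟨D + D', P * Q' + Q * P', Q * Q', (h1.mul h2').add (h2.mul h1'), h2.mul h2', ?_, ?_⟩
    · rw [map_mul]
      exact mul_ne_zero h3 h3'
    · rw [map_add, map_mul, map_mul, map_mul, h4, h4']
      ring
  | inv z _ ih =>
    obtain ⟨D, P, Q, h1, h2, h3, h4⟩ := ih
    by_cases hz : z = 0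
    · subst hz
      refine ⟨0, 0, 1, isHomogeneous_zero _ _ _, isHomogeneous_one _ _, by simp, by simp⟩
    · refine ⟨D, Q, P, h2, h1, ?_, ?_⟩
      · rw [h4]
        exact mul_ne_zero h3 hz
      · rw [h4]
        field_simp
  | mul z w _ _ ihz ihw =>
    obtain ⟨D, P, Q, h1, h2, h3, h4⟩ := ihz
    obtain ⟨D', P', Q', h1', h2', h3', h4'⟩ := ihw
    refine ⟨D + D', P * P', Q * Q', h1.mul h1', h2.mul h2', ?_, ?_⟩
    · rw [map_mul]
      exact mul_ne_zero h3 h3'
    · rw [map_mul, map_mul, h4, h4']
      ring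

lemma exists_frac (h0 : y 0 ≠ 0) (z : E) (hz : z ∈ ratioField y) :
    ∃ P Q : MvPolynomial (Fin r) ℂ, f y Q ≠ 0 ∧ z = f y P / f y Q := by
  obtain ⟨D, P, Q, h1, h2, h3, h4⟩ := exists_form y z hz
  rw [aeval_y' h0 h1, aeval_y' h0 h2] at h4
  rw [aeval_y' h0 h2] at h3
  have h5 : f y (dh Q) ≠ 0 := right_ne_zero_of_mul h3
  have h6 : y 0 ^ D ≠ 0 := pow_ne_zero _ h0
  refine ⟨dh P, dh Q, h5, ?_⟩
  rw [eq_div_iff h5]
  have : y 0 ^ D * (z * f y (dh Q) - f y (dh P)) = 0 := by linear_combination -h4
  rcases mul_eq_zero.mp this with h | h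
  · exact absurd h h6
  · exact sub_eq_zero.mp h

end gen

section abs

variable {R0 : Type*} [CommRing R0] [IsDomain R0] [IsNoetherianRing R0] [Algebra ℂ R0]
  (K0 : Type*) [Field K0] [Algebra R0 K0] [IsFractionRing R0 K0] {E : Type*} [Field E] [Algebra K0 E]
  [Algebra R0 E] [IsScalarTower R0 K0 E] [FiniteDimensional K0 E] [Algebra.IsSeparable K0 E]
  [Algebra ℂ E] [IsScalarTower ℂ R0 E]

theorem absF {π : R0} (hπ : Prime π) :
    ∃ S : Finset (Place ℂ E),
      (∀ w, w ∈ S ↔ (∀ a : R0, w.Reg (algebraMap R0 E a)) ∧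
        (∀ a : R0, w.red (algebraMap R0 E a) = 0 ↔ π ∣ a)) ∧
      ∑ w ∈ S, (w.ord (algebraMap R0 E π)).toNat *
        finrank (Subfield.closure (Set.range fun a : R0 => w.red (algebraMap R0 E a))) w.RF =
        finrank K0 E := by
  let P0 : Ideal R0 := Ideal.span {π}
  have hP0 : P0.IsPrime := (Ideal.span_singleton_prime hπ.ne_zero).mpr hπ
  have hmem : ∀ a, a ∈ P0 ↔ π ∣ a := fun a => Ideal.mem_span_singleton
  let A := Localization.AtPrime P0
  letI : Algebra A K0 := IsLocalization.localizationAlgebraOfSubmonoidLe A K0 P0.primeCompl (nonZeroDivisors R0)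
    P0.primeCompl_le_nonZeroDivisors
  have t1 : IsScalarTower R0 A K0 := IsLocalization.localization_isScalarTower_of_submonoid_le A K0 P0.primeCompl
    (nonZeroDivisors R0) P0.primeCompl_le_nonZeroDivisors
  have t2 : IsFractionRing A K0 :=
    IsFractionRing.isFractionRing_of_isDomain_of_isLocalization P0.primeCompl A K0
  letI : Algebra A E := ((algebraMap K0 E).comp (algebraMap A K0)).toAlgebra
  have t3 : IsScalarTower A K0 E := IsScalarTower.of_algebraMap_eq' rfl
  have t4 : IsScalarTower R0 A E := IsScalarTower.of_algebraMap_eq fun x => by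
    rw [IsScalarTower.algebraMap_apply R0 K0 E, IsScalarTower.algebraMap_apply R0 A K0]; rfl
  have t5 : IsScalarTower ℂ A E := IsScalarTower.of_algebraMap_eq fun c => by
    rw [IsScalarTower.algebraMap_apply ℂ R0 A, ← IsScalarTower.algebraMap_apply R0 A E,
      ← IsScalarTower.algebraMap_apply ℂ R0 E]
  have t6 : IsDomain A := IsLocalization.isDomain_localization P0.primeCompl_le_nonZeroDivisors
  have t7 : IsNoetherianRing A := IsLocalization.isNoetherianRing P0.primeCompl A inferInstance
  have hmaxid : IsLocalRing.maximalIdeal A = Ideal.span {algebraMap R0 A π} := by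
    rw [← IsLocalization.AtPrime.map_eq_maximalIdeal P0 A, Ideal.map_span, Set.image_singleton]
  have h42 : (IsLocalRing.maximalIdeal A).IsPrincipal ↔ IsDedekindDomain A :=
    (tfae_of_isNoetherianRing_of_isLocalRing_of_isDomain A).out 4 2
  have t8 : IsDedekindDomain A := h42.mp ⟨⟨_, hmaxid⟩⟩
  have hinj : Function.Injective (algebraMap R0 A) :=
    IsLocalization.injective A P0.primeCompl_le_nonZeroDivisors
  have hπA : algebraMap R0 A π ≠ 0 := by
    intro h
    exact hπ.ne_zero (hinj (h.trans (map_zero _).symm))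
  have hinjE : Function.Injective (algebraMap R0 E) := by
    rw [IsScalarTower.algebraMap_eq R0 K0 E]
    exact (algebraMap K0 E).injective.comp (IsFractionRing.injective R0 K0)
  obtain ⟨S, h1, h2, h3⟩ := FF.fundamental (k := ℂ) (A := A) (L := E) K0 (algebraMap R0 A π) hπA
    (by rw [← hmaxid]; exact IsLocalRing.maximalIdeal.isMaximal A)
  have key : ∀ w : Place ℂ E, ((∀ a : A, w.Reg (algebraMap A E a)) ∧
      0 < w.ord (algebraMap A E (algebraMap R0 A π))) ↔ ((∀ a : R0, w.Reg (algebraMap R0 E a)) ∧
        (∀ a : R0, w.red (algebraMap R0 E a) = 0 ↔ π ∣ a)) := by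
    intro w
    constructor
    · rintro ⟨hr, ho⟩
      have hr0 : ∀ a : R0, w.Reg (algebraMap R0 E a) := fun a => by
        rw [IsScalarTower.algebraMap_apply R0 A E]; exact hr _
      refine ⟨hr0, fun a => ⟨fun h => ?_, ?_⟩⟩
      · by_contra hna
        have hu : IsUnit (algebraMap R0 A a) :=
          IsLocalization.map_units A (⟨a, fun hh => hna ((hmem a).mp hh)⟩ : P0.primeCompl)
        obtain ⟨b, hb⟩ := hu.exists_right_inv
        have h4 := w.red_mul (hr (algebraMap R0 A a)) (hr b)
        rw [← map_mul, hb, map_one, w.red_one, ← IsScalarTower.algebraMap_apply R0 A E, h, zero_mul] at h4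
        exact one_ne_zero h4
      · rintro ⟨c, rfl⟩
        rw [map_mul, w.red_mul (hr0 _) (hr0 _)]
        have : w.red (algebraMap R0 E π) = 0 := by
          rw [w.red_eq_zero_iff (hr0 _)]
          right
          rw [IsScalarTower.algebraMap_apply R0 A E]; exact ho
        rw [this, zero_mul]
    · rintro ⟨hr, ho⟩
      constructor
      · intro x
        obtain ⟨a, s, rfl⟩ := IsLocalization.exists_mk'_eq P0.primeCompl x
        have hs : ¬ π ∣ s.1 := fun hh => s.2 ((hmem _).mpr hh)
        have hs1 : w.red (algebraMap R0 E s.1) ≠ 0 := fun hh => hs ((ho _).mp hh)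
        rw [Ne, w.red_eq_zero_iff (hr _)] at hs1
        push Not at hs1
        have hs2 := (w.reg_iff hs1.1).1 (hr s.1)
        have e : algebraMap A E (IsLocalization.mk' A a s) = algebraMap R0 E a / algebraMap R0 E s.1 := by
          rw [eq_div_iff hs1.1, IsScalarTower.algebraMap_apply R0 A E s.1, ← map_mul,
            IsLocalization.mk'_spec, ← IsScalarTower.algebraMap_apply R0 A E]
        rw [e]
        by_cases ha : algebraMap R0 E a = 0
        · left; rw [ha, zero_div]
        · right
          rw [w.ord_div ha hs1.1]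
          have := (w.reg_iff ha).1 (hr a)
          have := hs1.2
          omega
      · rw [← IsScalarTower.algebraMap_apply R0 A E]
        have h4 := (ho π).mpr dvd_rfl
        rw [w.red_eq_zero_iff (hr _)] at h4
        rcases h4 with h4 | h4
        · exact absurd (hinjE (h4.trans (map_zero _).symm)) hπ.ne_zero
        · exact h4
  have hcl : ∀ w ∈ S, Subfield.closure (Set.range fun a : A => w.red (algebraMap A E a)) =
      Subfield.closure (Set.range fun a : R0 => w.red (algebraMap R0 E a)) := by
    intro w hw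
    have hw1 := (h1 w).mp hw
    obtain ⟨hr, ho⟩ := (key w).mp hw1
    apply le_antisymm
    · rw [Subfield.closure_le]
      rintro _ ⟨x, rfl⟩
      obtain ⟨a, s, rfl⟩ := IsLocalization.exists_mk'_eq P0.primeCompl x
      have hs : ¬ π ∣ s.1 := fun hh => s.2 ((hmem _).mpr hh)
      have hs1 : w.red (algebraMap R0 E s.1) ≠ 0 := fun hh => hs ((ho _).mp hh)
      have e : w.red (algebraMap A E (IsLocalization.mk' A a s)) * w.red (algebraMap R0 E s.1) =
          w.red (algebraMap R0 E a) := by
        rw [← w.red_mul (hw1.1 _) (hr _), IsScalarTower.algebraMap_apply R0 A E s.1, ← map_mul,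
            IsLocalization.mk'_spec, ← IsScalarTower.algebraMap_apply R0 A E]
      have e2 : w.red (algebraMap A E (IsLocalization.mk' A a s)) =
          w.red (algebraMap R0 E a) / w.red (algebraMap R0 E s.1) := by
        rw [eq_div_iff hs1, e]
      show w.red (algebraMap A E (IsLocalization.mk' A a s)) ∈ _
      rw [e2]
      exact div_mem (Subfield.subset_closure ⟨a, rfl⟩) (Subfield.subset_closure ⟨s.1, rfl⟩)
    · rw [Subfield.closure_le]
      rintro _ ⟨a, rfl⟩
      refine Subfield.subset_closure ⟨algebraMap R0 A a, ?_⟩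
      show w.red (algebraMap A E (algebraMap R0 A a)) = w.red (algebraMap R0 E a)
      rw [← IsScalarTower.algebraMap_apply R0 A E]
  refine ⟨S, fun w => (h1 w).trans (key w), ?_⟩
  rw [← h3]
  refine Finset.sum_congr rfl fun w hw => ?_
  unfold Place.relf
  rw [hcl w hw, ← IsScalarTower.algebraMap_apply R0 A E]

end abs

/-- job FI -/
theorem fi : S_FI := by
  intro r d F hF hd hirr E _ _ y hy hfin
  have hy' : Gen y := hy
  have h0 := y0_ne hy'
  have hpr := prime_dh hy' hF hd hirr
  letI : Algebra (MvPolynomial (Fin r) ℂ) E := (f y).toRingHom.toAlgebra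
  letI : Algebra (MvPolynomial (Fin r) ℂ) (ratioField y) :=
    ((f y).toRingHom.codRestrict (ratioField y).toSubfield.toSubring (fun P => f_mem h0 P)).toAlgebra
  have a1 : ∀ P, algebraMap (MvPolynomial (Fin r) ℂ) E P = f y P := fun _ => rfl
  have a2 : ∀ P, algebraMap (ratioField y) E (algebraMap (MvPolynomial (Fin r) ℂ) (ratioField y) P) = f y P :=
    fun _ => rfl
  have t1 : IsScalarTower (MvPolynomial (Fin r) ℂ) (ratioField y) E :=
    IsScalarTower.of_algebraMap_eq fun P => rfl
  have t2 : IsScalarTower ℂ (MvPolynomial (Fin r) ℂ) E :=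
    IsScalarTower.of_algebraMap_eq fun c => by
      rw [a1]
      exact ((f y).commutes c).symm
  have t3 : FaithfulSMul (MvPolynomial (Fin r) ℂ) (ratioField y) := by
    rw [faithfulSMul_iff_algebraMap_injective]
    intro P Q h
    exact f_inj hy' (congrArg (algebraMap (ratioField y) E) h)
  have t4 : IsFractionRing (MvPolynomial (Fin r) ℂ) (ratioField y) := by
    refine IsFractionRing.of_field _ _ ?_
    rintro ⟨z, hz⟩
    obtain ⟨P, Q, hQ, hz'⟩ := exists_frac h0 z hz
    refine ⟨P, Q, ?_⟩
    apply Subtype.ext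
    exact hz'
  have t5 : CharZero (ratioField y) := charZero_of_injective_algebraMap (algebraMap ℂ (ratioField y)).injective
  have t6 : Algebra.IsSeparable (ratioField y) E := inferInstance
  obtain ⟨S, h1, h2⟩ := absF (ratioField y) (E := E) hpr
  refine ⟨S, fun w => ?_, ?_⟩
  · rw [h1 w]
    constructor
    · rintro ⟨hr, ho⟩
      have hreg : ∀ i, w.Reg (y i / y 0) := by
        intro i
        have := hr (dh (X i))
        rw [a1, f_dh h0, aeval_X] at this
        exact this
      have hred : ∀ H : MvPolynomial (Fin (r + 1)) ℂ,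
          w.red (f y (dh H)) = aeval (fun i => w.red (y i / y 0)) H := by
        intro H
        rw [f_dh h0]
        have hh : ∀ H : MvPolynomial (Fin (r + 1)) ℂ, w.Reg (aeval (fun i => y i / y 0) H) ∧
            w.red (aeval (fun i => y i / y 0) H) = aeval (fun i => w.red (y i / y 0)) H := by
          intro H
          induction H using MvPolynomial.induction_on with
          | C a =>
            rw [aeval_C, aeval_C]
            exact ⟨w.reg_const a, rfl⟩
          | add p q hp hq =>
            rw [map_add, map_add]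
            exact ⟨w.reg_add hp.1 hq.1, by rw [w.red_add hp.1 hq.1, hp.2, hq.2]⟩
          | mul_X p i hp =>
            rw [map_mul, map_mul, aeval_X, aeval_X]
            exact ⟨w.reg_mul hp.1 (hreg i), by rw [w.red_mul hp.1 (hreg i), hp.2]⟩
        exact (hh H).2
      refine ⟨hreg, ?_, ?_⟩
      · rw [← hred]
        exact (ho (dh F)).mpr dvd_rfl
      · intro e H hH hz
        rw [← hred] at hz
        exact (dvd_iff hy' hF hd hirr hH).mp ((ho (dh H)).mp hz)
    · rintro ⟨hreg, hF0, hH0⟩
      have hh : ∀ H : MvPolynomial (Fin (r + 1)) ℂ, w.Reg (f y (dh H)) ∧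
          w.red (f y (dh H)) = aeval (fun i => w.red (y i / y 0)) H := by
        intro H
        rw [f_dh h0]
        induction H using MvPolynomial.induction_on with
        | C a =>
          rw [aeval_C, aeval_C]
          exact ⟨w.reg_const a, rfl⟩
        | add p q hp hq =>
          rw [map_add, map_add]
          exact ⟨w.reg_add hp.1 hq.1, by rw [w.red_add hp.1 hq.1, hp.2, hq.2]⟩
        | mul_X p i hp =>
          rw [map_mul, map_mul, aeval_X, aeval_X]
          exact ⟨w.reg_mul hp.1 (hreg i), by rw [w.red_mul hp.1 (hreg i), hp.2]⟩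
      have hP : ∀ P : MvPolynomial (Fin r) ℂ, dh (hm P.totalDegree P) = P := fun P => dh_hm le_rfl
      refine ⟨fun P => ?_, fun P => ⟨fun h => ?_, ?_⟩⟩
      · rw [a1, ← hP P]; exact (hh _).1
      · rw [a1, ← hP P, (hh _).2] at h
        rw [← hP P]
        exact (dvd_iff hy' hF hd hirr (hm_hom _ _)).mpr (hH0 _ _ (hm_hom _ _) h)
      · rintro ⟨Q, rfl⟩
        rw [a1, map_mul, ← hP Q, w.red_mul (hh _).1 (hh _).1, (hh F).2, hF0, zero_mul]
  · rw [← h2]
    refine Finset.sum_congr rfl fun w hw => ?_
    obtain ⟨hr, ho⟩ := (h1 w).mp hw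
    have hreg : ∀ i, w.Reg (y i / y 0) := by
      intro i
      have := hr (dh (X i))
      rw [a1, f_dh h0, aeval_X] at this
      exact this
    have e1 : aeval y F / y 0 ^ d = algebraMap (MvPolynomial (Fin r) ℂ) E (dh F) := by
      rw [a1, aeval_y' h0 hF]
      field_simp
    rw [e1]
    congr 1
    have hP : ∀ P : MvPolynomial (Fin r) ℂ, dh (hm P.totalDegree P) = P := fun P => dh_hm le_rfl
    have hsub : (ratioField fun i => w.red (y i / y 0)).toSubfield =
        Subfield.closure (Set.range fun a : MvPolynomial (Fin r) ℂ =>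
          w.red (algebraMap (MvPolynomial (Fin r) ℂ) E a)) := by
      have hconst : ∀ c : ℂ, algebraMap ℂ w.RF c ∈ Subfield.closure (Set.range fun a : MvPolynomial (Fin r) ℂ =>
          w.red (algebraMap (MvPolynomial (Fin r) ℂ) E a)) := by
        intro c
        refine Subfield.subset_closure ⟨C c, ?_⟩
        show w.red (algebraMap (MvPolynomial (Fin r) ℂ) E (C c)) = _
        rw [a1]
        unfold f
        rw [aeval_C]; rfl
      have hz : ∀ i, w.red (y i / y 0) ∈ Subfield.closure (Set.range fun a : MvPolynomial (Fin r) ℂ =>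
          w.red (algebraMap (MvPolynomial (Fin r) ℂ) E a)) := by
        intro i
        refine Subfield.subset_closure ⟨dh (X i), ?_⟩
        show w.red (algebraMap (MvPolynomial (Fin r) ℂ) E (dh (X i))) = _
        rw [a1, f_dh h0, aeval_X]
      apply le_antisymm
      · intro z hz'
        have hz'' : z ∈ ratioField fun i => w.red (y i / y 0) := hz'
        unfold ratioField at hz''
        induction hz'' using IntermediateField.adjoin_induction with
        | mem z h =>
          obtain ⟨i, j, rfl⟩ := h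
          exact div_mem (hz i) (hz j)
        | algebraMap a => exact hconst a
        | add a b ha hb iha ihb =>
          exact add_mem (iha (by exact ha)) (ihb (by exact hb))
        | inv a ha iha => exact inv_mem (iha (by exact ha))
        | mul a b ha hb iha ihb => exact mul_mem (iha (by exact ha)) (ihb (by exact hb))
      · rw [Subfield.closure_le]
        rintro _ ⟨P, rfl⟩
        show w.red (algebraMap (MvPolynomial (Fin r) ℂ) E P) ∈ ratioField fun i => w.red (y i / y 0)
        have hred0 : w.red (y 0 / y 0) = 1 := by rw [div_self h0, w.red_one]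
        have hzi : ∀ i, w.red (y i / y 0) ∈ ratioField fun i => w.red (y i / y 0) := by
          intro i
          refine IntermediateField.subset_adjoin _ _ ⟨i, 0, ?_⟩
          show w.red (y i / y 0) = w.red (y i / y 0) / w.red (y 0 / y 0)
          rw [hred0, div_one]
        rw [a1]
        unfold f
        have hh : w.Reg (aeval (fun i => y (Fin.succ i) / y 0) P) ∧
            w.red (aeval (fun i => y (Fin.succ i) / y 0) P) ∈ ratioField fun i => w.red (y i / y 0) := by
          induction P using MvPolynomial.induction_on with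
          | C a =>
            rw [aeval_C]
            exact ⟨w.reg_const a, IntermediateField.algebraMap_mem _ a⟩
          | add p q hp hq =>
            rw [map_add]
            exact ⟨w.reg_add hp.1 hq.1, by rw [w.red_add hp.1 hq.1]; exact add_mem hp.2 hq.2⟩
          | mul_X p i hp =>
            rw [map_mul, aeval_X]
            exact ⟨w.reg_mul hp.1 (hreg _), by rw [w.red_mul hp.1 (hreg _)]; exact mul_mem hp.2 (hzi _)⟩
        exact hh.2
    rw [← hsub]
    rfl

end

end Pool.Agent.R845.T2.FI

namespace Pool.Agent.R845.T2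

/-- the fundamental identity over the generic point of a hypersurface -/
theorem fi : S_FI := FI.fi

end Pool.Agent.R845.T2
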