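import Mathlib
import Pool.Agent.R845.T2.Pl0
import Pool.Agent.Y201.LI.Thm3

/-! # Project T2: tangent lines through the generic point -/

set_option autoImplicit false

namespace Pool.Agent.R845.T2

open MvPolynomial Pool.Agent.TH314.PD Module FF IsDedekindDomain

noncomputable section

/-- reduction commutes with polynomials -/
theorem red_aeval {E : Type} [Field E] [Algebra ℂ E] (w : Place ℂ E) {n : ℕ} (z : Fin n → E)
    (hz : ∀ i, w.Reg (z i)) (H : MvPolynomial (Fin n) ℂ) :
    w.Reg (aeval z H) ∧ w.red (aeval z H) = aeval (fun i => w.red (z i)) H := by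
  induction H using MvPolynomial.induction_on with
  | C a =>
    rw [aeval_C, aeval_C]
    exact ⟨w.reg_const a, rfl⟩
  | add p q hp hq =>
    rw [map_add, map_add]
    exact ⟨w.reg_add hp.1 hq.1, by rw [w.red_add hp.1 hq.1, hp.2, hq.2]⟩
  | mul_X p i hp =>
    rw [map_mul, map_mul, aeval_X, aeval_X]
    exact ⟨w.reg_mul hp.1 (hz i), by rw [w.red_mul hp.1 (hz i), hp.2]⟩

variable {r d : ℕ} {F : MvPolynomial (Fin (r + 1)) ℂ} {M : Type} [Field M] [Algebra ℂ M]

/-- coordinates of a generic point are not zero -/
theorem coord_ne_zero {n : ℕ} {F : MvPolynomial (Fin n) ℂ} (hF : F.IsHomogeneous d) (hd : 2 ≤ d)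
    (x : Fin n → M)
    (hgen : ∀ (e : ℕ) (H : MvPolynomial (Fin n) ℂ), H.IsHomogeneous e → aeval x H = 0 → F ∣ H)
    (i : Fin n) : x i ≠ 0 := by
  intro h
  obtain ⟨Q, hQ⟩ := hgen 1 (X i) (isHomogeneous_X ℂ i) (by rw [aeval_X, h])
  obtain ⟨h1, -⟩ := exists_form_quot hF (isHomogeneous_X ℂ i) hQ (X_ne_zero i)
  omega

theorem minor_ne_zero {n : ℕ} {x p : Fin n → M} (h : LinearIndependent M ![x, p]) :
    ∃ i j, x i * p j - x j * p i ≠ 0 := by
  have hx : x ≠ 0 := h.ne_zero 0
  by_contra hc
  push Not at hc
  obtain ⟨j, hj⟩ : ∃ j, x j ≠ 0 := by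
    by_contra h3
    push Not at h3
    exact hx (funext h3)
  rw [LinearIndependent.pair_iff' hx] at h
  apply h (p j / x j)
  funext i
  rw [Pi.smul_apply, smul_eq_mul]
  have := hc i j
  field_simp
  linear_combination this

theorem tan_of (hDIV : S_DIV) (hNT : S_NT) (hFI : S_FI) (hFD : S_FD) : S_TAN := by
  classical
  intro r d F hF hd hsm M _ _ x p c hxp hx hgen hline
  by_cases hfin0 : finrank (ratioField x) M = 0
  · rw [hfin0]
    exact dvd_zero _
  have hfin : FiniteDimensional (ratioField x) M :=
    FiniteDimensional.of_finrank_pos (Nat.pos_of_ne_zero hfin0)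
  rcases Nat.lt_or_ge d 3 with hd3 | hd3
  · have : d = 2 := by omega
    subst this
    exact one_dvd _
  by_cases hc : c = 0
  · refine Pool.Agent.Y201.LI.contact hF hd hsm x hx hgen p hxp 0 ?_
    rw [hline, hc]
    simp
  have hF0 : F ≠ 0 := ne_zero_of_smooth hsm
  have hirr : Irreducible F := Pool.Agent.Y201.LI.irreducible_of_generic hF hF0 x hx hgen
  obtain ⟨hFp, hpol⟩ := polar_of_line hF hd3 x p c hline
  -- the line
  set Y : Fin (r + 1) → Polynomial M := fun j =>
    Polynomial.C (x j) + Polynomial.X * Polynomial.C (p j) with hY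
  set ι : Polynomial M →ₐ[ℂ] LF M := IsScalarTower.toAlgHom ℂ (Polynomial M) (LF M) with hι
  have hιa : ∀ b, ι b = algebraMap (Polynomial M) (LF M) b := fun _ => rfl
  have hinj : Function.Injective ι := inj_LF
  set y : Fin (r + 1) → LF M := fun j => ι (Y j) with hy
  have hyH : ∀ H : MvPolynomial (Fin (r + 1)) ℂ, aeval y H = ι (aeval Y H) := by
    intro H
    rw [comp_aeval_apply]
  have hY0 : ∀ i, (Y i).eval 0 = x i := by
    intro i
    simp [hY]
  have hFY : aeval Y F ≠ 0 := by
    rw [hline]
    exact mul_ne_zero (Polynomial.C_ne_zero.2 hc) Polynomial.X_ne_zero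
  have hygen : ∀ (e : ℕ) (H : MvPolynomial (Fin (r + 1)) ℂ), H.IsHomogeneous e →
      aeval y H = 0 → H = 0 := by
    intro e H hH h0
    refine generic_line hF (by omega) x hgen Y hY0 hFY e H hH (hinj ?_)
    rw [← hyH, h0, map_zero]
  have hx0 : ∀ i, x i ≠ 0 := coord_ne_zero hF hd x hgen
  -- constants
  have hMι : ∀ a : M, algebraMap M (LF M) a = ι (Polynomial.C a) := fun _ => rfl
  set s : LF M := ι Polynomial.X with hs
  have hys : ∀ i, y i = algebraMap M (LF M) (x i) + s * algebraMap M (LF M) (p i) := by
    intro i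
    rw [hMι, hMι, hs, ← map_mul, ← map_add]
  have hadj : IntermediateField.adjoin M {s} = (⊤ : IntermediateField M (LF M)) := by
    rw [eq_top_iff]
    intro f _
    obtain ⟨a, b, hb, rfl⟩ := IsFractionRing.div_surjective (A := Polynomial M) f
    have h1 : ∀ b : Polynomial M, algebraMap (Polynomial M) (LF M) b ∈
        IntermediateField.adjoin M {s} := by
      intro b
      have h2 : algebraMap (Polynomial M) (LF M) b = Polynomial.aeval s b := by
        have h3 : (Polynomial.aeval s : Polynomial M →ₐ[M] LF M) =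
            IsScalarTower.toAlgHom M (Polynomial M) (LF M) := by
          apply Polynomial.algHom_ext
          rw [Polynomial.aeval_X]
          rfl
        rw [h3]
        rfl
      rw [h2]
      have h4 : s ∈ IntermediateField.adjoin M {s} := IntermediateField.mem_adjoin_simple_self M s
      have h5 : Algebra.adjoin M {s} ≤ (IntermediateField.adjoin M {s}).toSubalgebra :=
        Algebra.adjoin_le (Set.singleton_subset_iff.2 h4)
      exact h5 (Polynomial.aeval_mem_adjoin_singleton M s)
    exact div_mem (h1 a) (h1 b)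
  have hfinE : FiniteDimensional (ratioField y) (LF M) :=
    hFD r d F hF hF0 M (LF M) x ⟨0, hx0 0⟩ hx hfin s hadj y hygen
  -- divisibility by the polar
  have hN : d - 1 ∣ finrank (ratioField y) (LF M) := by
    refine hDIV (r + 1) d F hF hd hsm (LF M) y hygen hfinE
      (fun i => algebraMap M (LF M) (p i)) ?_ ?_
    · intro h0
      have hp : p ≠ 0 := hxp.ne_zero 1
      apply hp
      funext i
      exact (algebraMap M (LF M)).injective ((congrFun h0 i).trans (map_zero _).symm)
    · have h1 : ∀ H : MvPolynomial (Fin (r + 1)) ℂ,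
          aeval (fun i => algebraMap M (LF M) (p i)) H = algebraMap M (LF M) (aeval p H) :=
        fun H => aeval_algebraMap_apply (LF M) p H
      have h2 := congrArg (aeval p) hF.sum_X_mul_pderiv
      rw [map_sum, map_nsmul, hFp, smul_zero] at h2
      simp only [map_mul, aeval_X] at h2
      have h3 : ∀ i, y i * aeval (fun i => algebraMap M (LF M) (p i)) (pderiv i F) =
          algebraMap M (LF M) (x i * aeval p (pderiv i F)) +
            s * algebraMap M (LF M) (p i * aeval p (pderiv i F)) := by
        intro i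
        rw [h1, hys, map_mul, map_mul]
        ring
      rw [Finset.sum_congr rfl fun i _ => h3 i, Finset.sum_add_distrib, ← Finset.mul_sum,
        ← map_sum, ← map_sum, hpol, h2, map_zero, mul_zero, add_zero]
  -- the fundamental identity
  obtain ⟨S, hS, hsum⟩ := hFI r d F hF hd hirr (LF M) y hygen hfinE
  have hy0 : ∀ i, y i ≠ 0 := by
    intro i h0
    have h1 := hygen 1 (X i) (isHomogeneous_X ℂ i) (by rw [aeval_X, h0])
    exact X_ne_zero i h1
  have hs0 : s ≠ 0 := by
    intro h0
    exact Polynomial.X_ne_zero (hinj (h0.trans (map_zero ι).symm))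
  have hyF : aeval y F = algebraMap M (LF M) c * s := by
    rw [hyH, hline, map_mul]
    rfl
  have hcE : algebraMap M (LF M) c ≠ 0 := by
    intro h0
    exact hc ((algebraMap M (LF M)).injective (h0.trans (map_zero _).symm))
  have hordG : ∀ w : Place ℂ (LF M), w.ord (aeval y F / y 0 ^ d) =
      w.ord (algebraMap M (LF M) c) + w.ord s - d * w.ord (y 0) := by
    intro w
    rw [hyF, w.ord_div (mul_ne_zero hcE hs0) (pow_ne_zero _ (hy0 0)), w.ord_mul hcE hs0,
      w.ord_pow]
  -- the place of the origin
  have hyi0 : ∀ i, (w0 M).ord (y i) = 0 := by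
    intro i
    refine w0_ord_of_eval ?_
    rw [hY0]
    exact hx0 i
  have hyr : ∀ i, (w0 M).Reg (y i) := fun i => w0_reg (Y i)
  have hw0reg : ∀ i, (w0 M).Reg (y i / y 0) := by
    intro i
    right
    rw [(w0 M).ord_div (hy0 i) (hy0 0), hyi0, hyi0, sub_zero]
  have hw0red : ∀ i, (w0 M).red (y i / y 0) = ev0 (x i / x 0) := by
    intro i
    have h1 : (w0 M).red (y i / y 0) * (w0 M).red (y 0) = (w0 M).red (y i) := by
      rw [← Place.red_mul _ (hw0reg i) (hyr 0), div_mul_cancel₀ _ (hy0 0)]
    have h2 : ∀ j, (w0 M).red (y j) = ev0 (x j) := by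
      intro j
      have h3 : (w0 M).red (y j) = ev0 ((Y j).eval 0) := red_w0 (Y j)
      rw [h3, hY0]
    rw [h2, h2] at h1
    have h4 : (ev0 (x 0) : (w0 M).RF) ≠ 0 := by
      intro h0
      exact hx0 0 (ev0_bij.1 (h0.trans (map_zero _).symm))
    rw [map_div₀, eq_div_iff h4, h1]
  have hw0aev : ∀ (e : ℕ) (H : MvPolynomial (Fin (r + 1)) ℂ), H.IsHomogeneous e →
      (aeval (fun i => (w0 M).red (y i / y 0)) H = 0 ↔ aeval x H = 0) := by
    intro e H hH
    have h1 : (fun i => (w0 M).red (y i / y 0)) = fun i => ev0 ((x 0)⁻¹ * x i) := by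
      funext i
      rw [hw0red, div_eq_inv_mul]
    rw [h1]
    have h2 : aeval (fun i => ev0 ((x 0)⁻¹ * x i)) H =
        (ev0 (aeval (fun i => (x 0)⁻¹ * x i) H) : (w0 M).RF) := by
      rw [comp_aeval_apply]
    rw [h2, aeval_smul_form hH, map_eq_zero_iff _ ev0_bij.1, mul_eq_zero]
    constructor
    · rintro (h | h)
      · exact absurd h (pow_ne_zero _ (inv_ne_zero (hx0 0)))
      · exact h
    · intro h
      exact Or.inr h
  have hw0S : w0 M ∈ S := by
    rw [hS]
    refine ⟨hw0reg, (hw0aev d F hF).2 hx, fun e H hH h0 => hgen e H hH ((hw0aev e H hH).1 h0)⟩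
  have hw0ord : (w0 M).ord (aeval y F / y 0 ^ d) = 1 := by
    rw [hordG, hyi0]
    have h1 : (w0 M).ord (algebraMap M (LF M) c) = 0 := by
      rw [hMι]
      refine w0_ord_of_eval ?_
      rwa [Polynomial.eval_C]
    have h2 : (w0 M).ord s = 1 := w0_ord_X
    rw [h1, h2]
    simp
  have hw0rel : finrank (ratioField fun i => (w0 M).red (y i / y 0)) (w0 M).RF =
      finrank (ratioField x) M := by
    have h1 : (fun i => (w0 M).red (y i / y 0)) =
        fun i => (AlgEquiv.ofBijective ev0 ev0_bij) (x i / x 0) := by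
      funext i
      rw [hw0red]
      rfl
    rw [h1, finrank_ratioField_equiv (AlgEquiv.ofBijective ev0 ev0_bij) (fun i => x i / x 0),
      Pool.Agent.Y929.LI.ratioField_div x (hx0 0)]
  -- the other places
  have hother : ∀ w ∈ S, w ≠ w0 M → d - 1 ∣ (w.ord (aeval y F / y 0 ^ d)).toNat *
      finrank (ratioField fun i => w.red (y i / y 0)) w.RF := by
    intro w hw hne
    obtain ⟨hreg, hFz, hgz⟩ := (hS w).1 hw
    by_cases htriv : ∃ a : M, a ≠ 0 ∧ w.ord (algebraMap M (LF M) a) ≠ 0
    · refine Dvd.dvd.mul_left ?_ _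
      refine hNT (r + 1) d F hF hd hirr hsm M (LF M) x p hxp hx hgen hfin w htriv
        (fun i => y i / y 0) (1 / y 0) (s / y 0) (fun i => ?_) hreg hFz hgz
      rw [hys i]
      ring
    push Not at htriv
    refine Dvd.dvd.mul_right ?_ _
    rw [hordG, htriv c hc, zero_add]
    rcases lt_or_ge (w.ord s) 0 with hneg | hpos
    · -- the place at infinity
      have hyp : ∀ i, p i ≠ 0 → w.ord (y i) = w.ord s := by
        intro i hpi
        have hpi' : algebraMap M (LF M) (p i) ≠ 0 := by
          intro h0
          exact hpi ((algebraMap M (LF M)).injective (h0.trans (map_zero _).symm))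
        have hxi' : algebraMap M (LF M) (x i) ≠ 0 := by
          intro h0
          exact hx0 i ((algebraMap M (LF M)).injective (h0.trans (map_zero _).symm))
        have h1 : w.ord (s * algebraMap M (LF M) (p i)) = w.ord s := by
          rw [w.ord_mul hs0 hpi', htriv _ hpi, add_zero]
        have h2 := w.ord_add_eq (mul_ne_zero hs0 hpi') hxi' (by
          rw [h1, htriv _ (hx0 i)]
          exact hneg)
        rw [hys, add_comm, h2.2, h1]
      by_cases hp0 : p 0 = 0
      · exfalso
        obtain ⟨i, hi⟩ : ∃ i, p i ≠ 0 := by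
          by_contra h3
          push Not at h3
          exact hxp.ne_zero 1 (funext h3)
        have h1 := hyp i hi
        have h2 : w.ord (y 0) = 0 := by
          rw [hys, hp0, map_zero, mul_zero, add_zero]
          exact htriv _ (hx0 0)
        have h3 := (w.reg_iff (div_ne_zero (hy0 i) (hy0 0))).1 (hreg i)
        rw [w.ord_div (hy0 i) (hy0 0), h1, h2] at h3
        omega
      · rw [hyp 0 hp0]
        have h1 : w.ord s - d * w.ord s = ((d - 1 : ℕ) : ℤ) * (-w.ord s) := by
          rw [Nat.cast_sub (by omega)]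
          push_cast
          ring
        rw [h1, Int.toNat_mul (by positivity) (by omega), Int.toNat_natCast]
        exact dvd_mul_right _ _
    · exfalso
      apply hne
      -- all coordinates are regular
      have hMreg : ∀ a : M, w.Reg (algebraMap M (LF M) a) := by
        intro a
        by_cases ha : a = 0
        · left
          rw [ha, map_zero]
        · right
          rw [htriv a ha]
      have hsreg : w.Reg s := Or.inr hpos
      have hyreg : ∀ i, w.Reg (y i) := by
        intro i
        rw [hys]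
        exact w.reg_add (hMreg _) (w.reg_mul hsreg (hMreg _))
      have hy0' : w.ord (y 0) = 0 := by
        have h1 := (w.reg_iff (hy0 0)).1 (hyreg 0)
        by_contra hne'
        have h2 : 0 < w.ord (y 0) := by omega
        have h3 : ∀ i, w.red (y i) = 0 := by
          intro i
          have h4 : w.red (y i / y 0 * y 0) = 0 := by
            rw [w.red_mul (hreg i) (hyreg 0), (w.red_eq_zero_iff (hyreg 0)).2 (Or.inr h2),
              mul_zero]
          rwa [div_mul_cancel₀ _ (hy0 0)] at h4
        obtain ⟨i, j, hij⟩ := minor_ne_zero hxp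
        have h5 : algebraMap M (LF M) (x i * p j - x j * p i) =
            y i * algebraMap M (LF M) (p j) - y j * algebraMap M (LF M) (p i) := by
          rw [hys, hys, map_sub, map_mul, map_mul]
          ring
        have h6 : w.red (algebraMap M (LF M) (x i * p j - x j * p i)) = 0 := by
          rw [h5, w.red_sub (w.reg_mul (hyreg i) (hMreg _)) (w.reg_mul (hyreg j) (hMreg _)),
            w.red_mul (hyreg i) (hMreg _), w.red_mul (hyreg j) (hMreg _), h3, h3]
          ring
        have h7 : algebraMap M (LF M) (x i * p j - x j * p i) ≠ 0 := by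
          intro h0
          exact hij ((algebraMap M (LF M)).injective (h0.trans (map_zero _).symm))
        exact w.red_ne_zero h7 (htriv _ hij) h6
      have hG : 0 < w.ord (aeval y F / y 0 ^ d) := by
        have h1 : aeval (fun i => y i / y 0) F = aeval y F / y 0 ^ d := by
          have h2 := aeval_smul_form hF (y 0)⁻¹ y
          have h3 : (fun i => y i / y 0) = fun i => (y 0)⁻¹ * y i := by
            funext i
            rw [div_eq_inv_mul]
          rw [h3, h2, inv_pow, div_eq_inv_mul]
        obtain ⟨h4, h5⟩ := red_aeval w (fun i => y i / y 0) hreg F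
        rw [hFz, h1] at h5
        rw [h1] at h4
        rw [w.red_eq_zero_iff h4] at h5
        rcases h5 with h5 | h5
        · exfalso
          rw [hyF] at h5
          exact div_ne_zero (mul_ne_zero hcE hs0) (pow_ne_zero _ (hy0 0)) h5
        · exact h5
      rw [hordG, htriv c hc, hy0'] at hG
      refine eq_w0 w (fun a ha => htriv a ha) ?_
      have h1 : w.ord (algebraMap (Polynomial M) (LF M) Polynomial.X) = w.ord s := rfl
      rw [h1]
      omega
  rw [← Finset.add_sum_erase S _ hw0S, hw0ord, hw0rel] at hsum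
  have h1 : d - 1 ∣ ∑ w ∈ S.erase (w0 M), (w.ord (aeval y F / y 0 ^ d)).toNat *
      finrank (ratioField fun i => w.red (y i / y 0)) w.RF :=
    Finset.dvd_sum fun w hw => hother w (Finset.mem_of_mem_erase hw) (Finset.ne_of_mem_erase hw)
  rw [← hsum] at hN
  have h2 := (Nat.dvd_add_left h1).1 hN
  have h3 : (1 : ℤ).toNat = 1 := rfl
  rw [h3, one_mul] at h2
  exact h2

end

end Pool.Agent.R845.T2
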