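import Mathlib
import Pool.Agent.R845.T2.Stm

/-! # Job NT: places which are not trivial on `M` -/

set_option autoImplicit false

namespace Pool.Agent.R845.T2.NT

open MvPolynomial Pool.Agent.TH314.PD IntermediateField Module FF Cardinal

noncomputable section

section place

variable {M E : Type} [Field M] [Field E] [Algebra ℂ M] [Algebra M E] [Algebra ℂ E]
  [IsScalarTower ℂ M E] (w : Place ℂ E)

theorem reg_inv {f : E} (h : w.red f ≠ 0) (hf : w.Reg f) :
    w.Reg f⁻¹ ∧ w.red f⁻¹ = (w.red f)⁻¹ := by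
  have h1 : ¬ (f = 0 ∨ 0 < w.ord f) := fun h2 => h ((w.red_eq_zero_iff hf).2 h2)
  push Not at h1
  obtain ⟨h2, h3⟩ := h1
  have h4 := (w.reg_iff h2).1 hf
  have h5 : w.Reg f⁻¹ := Or.inr (by rw [w.ord_inv]; omega)
  refine ⟨h5, ?_⟩
  have h6 := w.red_mul h5 hf
  rw [inv_mul_cancel₀ h2, w.red_one] at h6
  exact eq_inv_of_mul_eq_one_left h6.symm

variable (M) in
/-- the residues of the regular elements of `M` -/
def kap : IntermediateField ℂ w.RF where
  carrier := {c | ∃ a : M, w.Reg (algebraMap M E a) ∧ w.red (algebraMap M E a) = c}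
  mul_mem' := by
    rintro _ _ ⟨a, ha, rfl⟩ ⟨b, hb, rfl⟩
    exact ⟨a * b, by rw [map_mul]; exact w.reg_mul ha hb, by rw [map_mul, w.red_mul ha hb]⟩
  add_mem' := by
    rintro _ _ ⟨a, ha, rfl⟩ ⟨b, hb, rfl⟩
    exact ⟨a + b, by rw [map_add]; exact w.reg_add ha hb, by rw [map_add, w.red_add ha hb]⟩
  algebraMap_mem' := by
    intro c
    refine ⟨algebraMap ℂ M c, ?_, ?_⟩
    · rw [← IsScalarTower.algebraMap_apply]; exact w.reg_const c
    · rw [← IsScalarTower.algebraMap_apply]; rfl
  inv_mem' := by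
    rintro _ ⟨a, ha, rfl⟩
    by_cases h : w.red (algebraMap M E a) = 0
    · rw [h, inv_zero]
      exact ⟨0, by rw [map_zero]; exact w.reg_zero, by rw [map_zero, w.red_zero]⟩
    · obtain ⟨h1, h2⟩ := reg_inv w h ha
      exact ⟨a⁻¹, by rw [map_inv₀]; exact h1, by rw [map_inv₀, h2]⟩

theorem mem_kap {a : M} (ha : w.Reg (algebraMap M E a)) : w.red (algebraMap M E a) ∈ kap M w :=
  ⟨a, ha, rfl⟩

/-- the residue of the value of a polynomial -/
theorem red_aeval {ι : Type} (b : ι → E) (hb : ∀ i, w.Reg (b i)) (P : MvPolynomial ι ℂ) :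
    w.Reg (aeval b P) ∧ w.red (aeval b P) = aeval (fun i => w.red (b i)) P := by
  induction P using MvPolynomial.induction_on with
  | C a =>
    rw [aeval_C, aeval_C]
    exact ⟨w.reg_const a, rfl⟩
  | add p q hp hq =>
    rw [map_add, map_add]
    exact ⟨w.reg_add hp.1 hq.1, by rw [w.red_add hp.1 hq.1, hp.2, hq.2]⟩
  | mul_X p j hp =>
    rw [map_mul, map_mul, aeval_X, aeval_X]
    exact ⟨w.reg_mul hp.1 (hb j), by rw [w.red_mul hp.1 (hb j), hp.2]⟩

/-- the key lemma: many independent residues force the place to be trivial -/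
theorem trivial_of_indep {ι : Type} [Finite ι] (c : ι → w.RF) (hc : AlgebraicIndependent ℂ c)
    (halg : ∀ i, IsAlgebraic (kap M w) (c i)) (hM : Algebra.trdeg ℂ M ≤ #ι) (a : M) (ha : a ≠ 0) :
    w.ord (algebraMap M E a) = 0 := by
  obtain ⟨ι', v, hv⟩ := exists_isTranscendenceBasis' ℂ (kap M w)
  -- lifts
  have h1 : ∀ i, ∃ b : M, w.Reg (algebraMap M E b) ∧ w.red (algebraMap M E b) = v i :=
    fun i => (v i).2
  choose b hb hbv using h1
  have hv' : AlgebraicIndependent ℂ fun i => (v i : w.RF) :=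
    hv.1.map' (f := (kap M w).val) Subtype.val_injective
  have hP : ∀ P : MvPolynomial ι' ℂ, P ≠ 0 → w.red (aeval (fun i => algebraMap M E (b i)) P) ≠ 0 := by
    intro P hP h
    rw [(red_aeval w _ hb P).2] at h
    simp only [hbv] at h
    exact hP ((injective_iff_map_eq_zero _).1 hv' P h)
  have hbE : ∀ P : MvPolynomial ι' ℂ,
      aeval (fun i => algebraMap M E (b i)) P = algebraMap M E (aeval b P) := by
    intro P
    exact (MvPolynomial.aeval_algebraMap_apply E b P)
  have hbi : AlgebraicIndependent ℂ b := by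
    rw [AlgebraicIndependent, injective_iff_map_eq_zero]
    intro P h
    by_contra h0
    refine hP P h0 ?_
    rw [hbE, h, map_zero, w.red_zero]
  -- the cardinalities
  have hcard : #ι ≤ #ι' := by
    let K1 : IntermediateField (kap M w) w.RF := algebraicClosure (kap M w) w.RF
    let f : K1 →ₐ[ℂ] w.RF := K1.val.restrictScalars ℂ
    let c' : ι → K1 := fun i => ⟨c i, (mem_algebraicClosure_iff).2 (halg i)⟩
    have hc' : AlgebraicIndependent ℂ c' := by
      refine (AlgHom.algebraicIndependent_iff f Subtype.val_injective).1 ?_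
      exact hc
    have hF : FaithfulSMul (kap M w) K1 :=
      (faithfulSMul_iff_algebraMap_injective _ _).2 (algebraMap (kap M w) K1).injective
    have hA : Algebra.IsAlgebraic (kap M w) K1 := algebraicClosure.isAlgebraic _ _
    have hb' : IsTranscendenceBasis ℂ (algebraMap (kap M w) K1 ∘ v) := hv.algebraMap_comp
    rw [hb'.cardinalMk_eq_trdeg]
    exact hc'.cardinalMk_le_trdeg
  have hbt : IsTranscendenceBasis ℂ b :=
    hbi.isTranscendenceBasis_of_trdeg_le (hM.trans_lt (lt_aleph0_of_finite ι)) (hM.trans hcard)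
  have hal := hbt.isAlgebraic_field
  -- the field generated by the lifts is contained in the valuation ring
  have hK0 : ∀ k ∈ IntermediateField.adjoin ℂ (Set.range b), w.Reg (algebraMap M E k) := by
    intro k hk
    obtain ⟨P, Q, rfl⟩ := (IntermediateField.mem_adjoin_range_iff ℂ b k).1 hk
    by_cases hQ : Q = 0
    · rw [hQ, map_zero, div_zero, map_zero]; exact w.reg_zero
    · have h2 := hP Q hQ
      have h3 := (reg_inv w h2 (red_aeval w _ hb Q).1).1
      rw [hbE] at h3
      have h4 := (red_aeval w _ hb P).1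
      rw [hbE] at h4
      rw [div_eq_mul_inv, map_mul, map_inv₀]
      exact w.reg_mul h4 h3
  let φ : IntermediateField.adjoin ℂ (Set.range b) →+* w.O :=
    { toFun := fun k => ⟨algebraMap M E k, hK0 k k.2⟩
      map_one' := Subtype.ext (by simp)
      map_mul' := fun x y => Subtype.ext (by simp)
      map_zero' := Subtype.ext (by simp)
      map_add' := fun x y => Subtype.ext (by simp) }
  have hreg : ∀ m : M, w.Reg (algebraMap M E m) := by
    intro m
    obtain ⟨p, hp, hpe⟩ := (hal.isAlgebraic m).isIntegral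
    have h2 : IsIntegral w.O (algebraMap M E m) := by
      refine ⟨p.map φ, hp.map φ, ?_⟩
      rw [Polynomial.eval₂_map]
      have h3 : (algebraMap w.O E).comp φ = (algebraMap M E).comp
          (algebraMap (IntermediateField.adjoin ℂ (Set.range b)) M) := by
        ext x; rfl
      rw [h3, ← Polynomial.hom_eval₂, hpe, map_zero]
    obtain ⟨y, hy⟩ := IsIntegrallyClosed.isIntegral_iff.1 h2
    rw [← hy]
    exact y.2
  have h5 := (w.reg_iff ((map_ne_zero (algebraMap M E)).2 ha)).1 (hreg a)
  have h6 := (w.reg_iff ((map_ne_zero (algebraMap M E)).2 (inv_ne_zero ha))).1 (hreg a⁻¹)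
  rw [map_inv₀, w.ord_inv] at h6
  omega

end place

section form

/-- homogenization with respect to the variable `b` -/
theorem homog {r : ℕ} (b : Fin r) (P : MvPolynomial (Fin r) ℂ) :
    ∃ (e : ℕ) (H : MvPolynomial (Fin r) ℂ), H.IsHomogeneous e ∧
      ∀ (K : Type) [Field K] [Algebra ℂ K] (x : Fin r → K), x b ≠ 0 →
        aeval x H = x b ^ e * aeval (fun i => x i / x b) P := by
  refine ⟨P.totalDegree, ∑ k ∈ Finset.range (P.totalDegree + 1),
    X b ^ (P.totalDegree - k) * homogeneousComponent k P, ?_, ?_⟩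
  · refine IsHomogeneous.sum _ _ _ fun k hk => ?_
    have h1 : k ≤ P.totalDegree := Nat.lt_succ_iff.1 (Finset.mem_range.1 hk)
    have h2 := ((isHomogeneous_X ℂ b).pow (P.totalDegree - k)).mul
      (homogeneousComponent_isHomogeneous k P)
    have h3 : 1 * (P.totalDegree - k) + k = P.totalDegree := by omega
    rwa [h3] at h2
  · intro K _ _ x hx
    have h4 : x = fun i => x b * (x i / x b) := by
      funext i
      field_simp
    have h6 : aeval (fun i => x i / x b) P = ∑ k ∈ Finset.range (P.totalDegree + 1),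
        aeval (fun i => x i / x b) (homogeneousComponent k P) := by
      conv_lhs => rw [← sum_homogeneousComponent P]
      rw [map_sum]
    rw [map_sum, h6, Finset.mul_sum]
    refine Finset.sum_congr rfl fun k hk => ?_
    have h1 : k ≤ P.totalDegree := Nat.lt_succ_iff.1 (Finset.mem_range.1 hk)
    rw [map_mul, map_pow, aeval_X]
    have h5 : aeval x (homogeneousComponent k P) =
        x b ^ k * aeval (fun i => x i / x b) (homogeneousComponent k P) := by
      conv_lhs => rw [h4]
      exact aeval_smul_form (homogeneousComponent_isHomogeneous k P) _ _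
    rw [h5, ← mul_assoc, ← pow_add, Nat.sub_add_cancel h1]

/-- `x` is a generic point of `F = 0` -/
def Gen {r : ℕ} (F : MvPolynomial (Fin r) ℂ) {K : Type} [Field K] [Algebra ℂ K] (x : Fin r → K) :
    Prop :=
  aeval x F = 0 ∧ ∀ (e : ℕ) (H : MvPolynomial (Fin r) ℂ), H.IsHomogeneous e → aeval x H = 0 → F ∣ H

theorem Gen.iff {r : ℕ} {F : MvPolynomial (Fin r) ℂ} {K K' : Type} [Field K] [Algebra ℂ K]
    [Field K'] [Algebra ℂ K'] {x : Fin r → K} {y : Fin r → K'} (hx : Gen F x) (hy : Gen F y)
    {e : ℕ} {H : MvPolynomial (Fin r) ℂ} (hH : H.IsHomogeneous e) :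
    aeval x H = 0 ↔ aeval y H = 0 := by
  constructor
  · intro h
    obtain ⟨G, rfl⟩ := hx.2 e H hH h
    rw [map_mul, hy.1, zero_mul]
  · intro h
    obtain ⟨G, rfl⟩ := hy.2 e H hH h
    rw [map_mul, hx.1, zero_mul]

theorem Gen.ne {r : ℕ} {F : MvPolynomial (Fin r) ℂ} {K K' : Type} [Field K] [Algebra ℂ K]
    [Field K'] [Algebra ℂ K'] {x : Fin r → K} {y : Fin r → K'} (hx : Gen F x) (hy : Gen F y)
    {b : Fin r} (hb : x b ≠ 0) : y b ≠ 0 := by
  have := Gen.iff hx hy (isHomogeneous_X ℂ b)
  rw [aeval_X, aeval_X] at this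
  exact fun h => hb (this.2 h)

theorem Gen.iff' {r : ℕ} {F : MvPolynomial (Fin r) ℂ} {K K' : Type} [Field K] [Algebra ℂ K]
    [Field K'] [Algebra ℂ K'] {x : Fin r → K} {y : Fin r → K'} (hx : Gen F x) (hy : Gen F y)
    {b : Fin r} (hb : x b ≠ 0) (P : MvPolynomial (Fin r) ℂ) :
    aeval (fun i => x i / x b) P = 0 ↔ aeval (fun i => y i / y b) P = 0 := by
  obtain ⟨e, H, hH, h⟩ := homog b P
  have h1 := Gen.iff hx hy hH
  rw [h K x hb, h K' y (Gen.ne hx hy hb)] at h1
  simpa [hb, Gen.ne hx hy hb] using h1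

open scoped IntermediateField.algebraAdjoinAdjoin in
theorem isAlgebraic_adjoin {K : Type} [Field K] [Algebra ℂ K] (S : Set K)
    (h : Algebra.IsAlgebraic (IntermediateField.adjoin ℂ S) K) :
    Algebra.IsAlgebraic (Algebra.adjoin ℂ S) K :=
  Algebra.IsAlgebraic.trans (Algebra.adjoin ℂ S) (IntermediateField.adjoin ℂ S) K

/-- the ratios contain a transcendence basis, and the corresponding ratios of any other generic
point are algebraically independent -/
theorem exists_basis {r : ℕ} {F : MvPolynomial (Fin r) ℂ} {K K' : Type} [Field K] [Algebra ℂ K]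
    [Field K'] [Algebra ℂ K'] {x : Fin r → K} {y : Fin r → K'} (hx : Gen F x) (hy : Gen F y)
    {b : Fin r} (hb : x b ≠ 0) [FiniteDimensional (ratioField x) K] :
    ∃ (ι : Type) (_ : Finite ι) (f : ι → Fin r), Algebra.trdeg ℂ K ≤ #ι ∧
      AlgebraicIndependent ℂ fun a => y (f a) / y b := by
  classical
  have h1 : ratioField x = IntermediateField.adjoin ℂ (Set.range fun i => x i / x b) := by
    apply le_antisymm
    · refine IntermediateField.adjoin_le_iff.2 ?_
      rintro _ ⟨i, j, rfl⟩
      have h2 : x i / x j = (x i / x b) / (x j / x b) := by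
        rw [div_div_div_cancel_right₀ hb]
      rw [h2]
      exact div_mem (IntermediateField.subset_adjoin _ _ ⟨i, rfl⟩)
        (IntermediateField.subset_adjoin _ _ ⟨j, rfl⟩)
    · refine IntermediateField.adjoin_le_iff.2 ?_
      rintro _ ⟨i, rfl⟩
      exact IntermediateField.subset_adjoin _ _ ⟨i, b, rfl⟩
  have h2 : Algebra.IsAlgebraic (ratioField x) K := inferInstance
  have h3 : Algebra.IsAlgebraic (Algebra.adjoin ℂ (Set.range fun i => x i / x b)) K := by
    rw [h1] at h2
    exact isAlgebraic_adjoin _ h2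
  obtain ⟨u, hu, hub⟩ := exists_isTranscendenceBasis_subset (R := ℂ)
    (Set.range fun i => x i / x b)
  choose f hf using fun a : u => hu a.2
  have hfin : Finite u := (Set.finite_range _).subset hu
  refine ⟨u, hfin, f, hub.cardinalMk_eq_trdeg.ge, ?_⟩
  have h4 : AlgebraicIndependent ℂ fun a : u => x (f a) / x b := by
    have : (fun a : u => x (f a) / x b) = ((↑) : u → K) := funext fun a => hf a
    rw [this]
    exact hub.1
  rw [AlgebraicIndependent, injective_iff_map_eq_zero] at h4 ⊢
  intro P hP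
  refine h4 P ?_
  have h5 := (Gen.iff' hx hy hb (rename f P)).2
  rw [aeval_rename, aeval_rename] at h5
  exact h5 hP

/-- ratios are unchanged by scaling -/
theorem ratioField_div {r : ℕ} {K : Type} [Field K] [Algebra ℂ K] (y : Fin r → K) {c : K}
    (hc : c ≠ 0) : ratioField (fun i => y i / c) = ratioField y := by
  unfold ratioField
  congr 1
  ext t
  constructor
  · rintro ⟨i, j, rfl⟩
    exact ⟨i, j, div_div_div_cancel_right₀ hc _ _⟩
  · rintro ⟨i, j, rfl⟩
    exact ⟨i, j, (div_div_div_cancel_right₀ hc _ _).symm⟩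

theorem aeval_div {r e : ℕ} {K : Type} [Field K] [Algebra ℂ K] (y : Fin r → K) (c : K)
    {H : MvPolynomial (Fin r) ℂ} (hH : H.IsHomogeneous e) :
    aeval (fun i => y i / c) H = (c⁻¹) ^ e * aeval y H := by
  have : (fun i => y i / c) = fun i => c⁻¹ * y i := funext fun i => div_eq_inv_mul _ _
  rw [this]
  exact aeval_smul_form hH _ _

end form

/-- a nonzero minor of minimal order -/
theorem exists_minor {r : ℕ} {M E : Type} [Field M] [Field E] [Algebra M E] [Algebra ℂ E]
    (w : Place ℂ E) {x p : Fin r → M} (h : LinearIndependent M ![x, p]) :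
    (∃ b, x b ≠ 0) ∧ ∃ i j : Fin r, x i * p j - x j * p i ≠ 0 ∧
      ∀ k l : Fin r, x k * p l - x l * p k ≠ 0 →
        w.ord (algebraMap M E (x i * p j - x j * p i)) ≤
          w.ord (algebraMap M E (x k * p l - x l * p k)) := by
  classical
  rw [LinearIndependent.pair_iff] at h
  have hx : ∃ b, x b ≠ 0 := by
    by_contra hc
    push Not at hc
    have := h 1 0 (by ext i; simp [hc i])
    exact one_ne_zero this.1
  refine ⟨hx, ?_⟩
  obtain ⟨b, hb⟩ := hx
  have hne : (Finset.univ.filter fun q : Fin r × Fin r =>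
      x q.1 * p q.2 - x q.2 * p q.1 ≠ 0).Nonempty := by
    by_contra hc
    rw [Finset.not_nonempty_iff_eq_empty, Finset.filter_eq_empty_iff] at hc
    have h1 := h (p b) (-x b) (by
      ext i
      have := hc (Finset.mem_univ (i, b))
      push Not at this
      simp only [Pi.add_apply, Pi.smul_apply, smul_eq_mul, Pi.zero_apply]
      simp only at this
      linear_combination this)
    exact hb (neg_eq_zero.1 h1.2)
  obtain ⟨q, hq, hmin⟩ := Finset.exists_min_image _
    (fun q : Fin r × Fin r => w.ord (algebraMap M E (x q.1 * p q.2 - x q.2 * p q.1))) hne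
  refine ⟨q.1, q.2, (Finset.mem_filter.1 hq).2, fun k l hkl => ?_⟩
  exact hmin (k, l) (Finset.mem_filter.2 ⟨Finset.mem_univ _, hkl⟩)

end

end Pool.Agent.R845.T2.NT

namespace Pool.Agent.R845.T2

open MvPolynomial Pool.Agent.TH314.PD IntermediateField Module FF NT

/-- **Job NT** -/
theorem nt (hT1 : Pool.Agent.Y201.LI.S_T1) : S_NT := by
  intro r d F hF hd hirr hsm M E _ _ _ _ _ _ x p hxp hx hgen hfin w hw z α β hz hreg hzF hzgen
  obtain ⟨⟨b, hb⟩, i₀, j₀, hD, hmin⟩ := exists_minor w hxp
  set zr : Fin r → w.RF := fun i => w.red (z i) with hzr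
  have hGx : Gen F x := ⟨hx, hgen⟩
  have hGz : Gen F zr := ⟨hzF, hzgen⟩
  have hq : ∀ k l : Fin r, w.Reg (algebraMap M E
      ((x k * p l - x l * p k) / (x i₀ * p j₀ - x j₀ * p i₀))) := by
    intro k l
    by_cases h0 : x k * p l - x l * p k = 0
    · rw [h0, zero_div, map_zero]; exact w.reg_zero
    · right
      rw [map_div₀, w.ord_div ((map_ne_zero _).2 h0) ((map_ne_zero _).2 hD)]
      have := hmin k l h0
      omega
  let u : Fin r → w.RF := fun k => w.red (algebraMap M E
      ((x k * p j₀ - x j₀ * p k) / (x i₀ * p j₀ - x j₀ * p i₀)))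
  let v : Fin r → w.RF := fun k => w.red (algebraMap M E
      ((x i₀ * p k - x k * p i₀) / (x i₀ * p j₀ - x j₀ * p i₀)))
  have hu : ∀ k, u k ∈ kap M w := fun k => mem_kap w (hq _ _)
  have hv : ∀ k, v k ∈ kap M w := fun k => mem_kap w (hq _ _)
  have hzk : ∀ k, zr k = zr i₀ * u k + zr j₀ * v k := by
    intro k
    have h1 : z k = z i₀ * algebraMap M E
        ((x k * p j₀ - x j₀ * p k) / (x i₀ * p j₀ - x j₀ * p i₀)) + z j₀ * algebraMap M E
        ((x i₀ * p k - x k * p i₀) / (x i₀ * p j₀ - x j₀ * p i₀)) := by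
      have h2 : algebraMap M E (x i₀ * p j₀ - x j₀ * p i₀) ≠ 0 := (map_ne_zero _).2 hD
      rw [map_div₀, map_div₀, hz k, hz i₀, hz j₀]
      simp only [map_sub, map_mul] at h2 ⊢
      rw [mul_div_assoc', mul_div_assoc', ← add_div, eq_div_iff h2]
      ring
    change w.red (z k) = w.red (z i₀) * u k + w.red (z j₀) * v k
    rw [h1, w.red_add (w.reg_mul (hreg _) (hq _ _)) (w.reg_mul (hreg _) (hq _ _)),
      w.red_mul (hreg _) (hq _ _), w.red_mul (hreg _) (hq _ _)]
  by_cases hj : zr j₀ = 0 ∨ IsAlgebraic (kap M w) (zr i₀ / zr j₀)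
  · exfalso
    obtain ⟨a, ha, hwa⟩ := hw
    obtain ⟨ι, hfin', f, htr, hind⟩ := exists_basis hGx hGz hb
    have hzb : zr b ≠ 0 := Gen.ne hGx hGz hb
    refine hwa (trivial_of_indep w _ hind (fun c => ?_) htr a ha)
    have hual : ∀ k, IsAlgebraic (kap M w) (u k) := fun k =>
      isAlgebraic_algebraMap (⟨u k, hu k⟩ : kap M w)
    have hval : ∀ k, IsAlgebraic (kap M w) (v k) := fun k =>
      isAlgebraic_algebraMap (⟨v k, hv k⟩ : kap M w)
    by_cases h0 : zr j₀ = 0
    · have h1 : ∀ k, zr k = zr i₀ * u k := fun k => by rw [hzk k, h0, zero_mul, add_zero]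
      have h2 : zr i₀ ≠ 0 := fun h3 => hzb (by rw [h1 b, h3, zero_mul])
      rw [h1 (f c), h1 b, mul_div_mul_left _ _ h2, div_eq_mul_inv]
      exact (hual _).mul (hual _).inv
    · have hal : IsAlgebraic (kap M w) (zr i₀ / zr j₀) := hj.resolve_left h0
      have h1 : ∀ k, zr k = zr j₀ * (zr i₀ / zr j₀ * u k + v k) := fun k => by
        rw [hzk k]
        field_simp
      rw [h1 (f c), h1 b, mul_div_mul_left _ _ h0, div_eq_mul_inv]
      exact ((hal.mul (hual _)).add (hval _)).mul ((hal.mul (hual _)).add (hval _)).inv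
  · rw [not_or] at hj
    obtain ⟨h0, htr⟩ := hj
    have h1 : (fun k => zr i₀ / zr j₀ * u k + v k) = fun k => zr k / zr j₀ := by
      funext k
      rw [hzk k]
      field_simp
    have h2 := hT1 r d F hF hd hirr hsm w.RF (kap M w) (zr i₀ / zr j₀) htr u v hu hv
    rw [h1, ratioField_div zr h0] at h2
    refine h2 ?_ ?_
    · rw [aeval_div zr _ hF, hzF, mul_zero]
    · intro e H hH h3
      rw [aeval_div zr _ hH] at h3
      exact hzgen e H hH ((mul_eq_zero.1 h3).resolve_left (pow_ne_zero _ (inv_ne_zero h0)))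

end Pool.Agent.R845.T2
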