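import Mathlib
import Pool.Agent.R845.T2.Stm
import Pool.Agent.Y201.LI.Thm3

/-! # Project T2: job DIV -/

set_option autoImplicit false

namespace Pool.Agent.R845.T2

open MvPolynomial Pool.Agent.TH314.PD IntermediateField Module

noncomputable section

/-- scaling a generic point by a transcendental element gives algebraically independent elements -/
theorem algInd_scale {r : ℕ} {E : Type} [Field E] [Algebra ℂ E] (y : Fin r → E)
    (hy : ∀ (e : ℕ) (H : MvPolynomial (Fin r) ℂ), H.IsHomogeneous e → aeval y H = 0 → H = 0) :
    AlgebraicIndependent ℂ (fun i => (Polynomial.X : Polynomial E) * Polynomial.C (y i)) := by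
  rw [algebraicIndependent_iff]
  intro H hH
  have h1 : ∀ e : ℕ, aeval (fun i => (Polynomial.X : Polynomial E) * Polynomial.C (y i))
      (homogeneousComponent e H) =
      Polynomial.C (aeval y (homogeneousComponent e H)) * Polynomial.X ^ e := by
    intro e
    rw [aeval_smul_form (homogeneousComponent_isHomogeneous e H), mul_comm]
    congr 1
    exact aeval_algebraMap_apply (Polynomial E) y _
  have h3 : ∀ e, aeval y (homogeneousComponent e H) = 0 := by
    intro e
    have h4 := hH
    rw [← sum_homogeneousComponent H, map_sum] at h4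
    rw [Finset.sum_congr rfl fun e _ => h1 e] at h4
    by_cases he : e ∈ Finset.range (H.totalDegree + 1)
    · have h5 := congrArg (fun q => Polynomial.coeff q e) h4
      simp only [Polynomial.finsetSum_coeff, Polynomial.coeff_C_mul, Polynomial.coeff_X_pow,
        Polynomial.coeff_zero] at h5
      rw [Finset.sum_eq_single e] at h5
      · simpa using h5
      · intro b _ hb
        rw [if_neg (Ne.symm hb), mul_zero]
      · intro h
        exact absurd he h
    · rw [homogeneousComponent_eq_zero]
      · simp
      · simpa [Nat.lt_succ_iff] using he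
  rw [← sum_homogeneousComponent H]
  exact Finset.sum_eq_zero fun e _ => hy e _ (homogeneousComponent_isHomogeneous e H) (h3 e)

theorem div : S_DIV := by
  intro r d F hF hd hsm E _ _ y hy hfin p hp hpol
  have hone := Pool.Agent.Y201.LI.hone
  have hext := Pool.Agent.Y220.LI.ext
  have hbpf := Pool.Agent.Y394.LI.bpf
  -- a nonzero coordinate
  obtain ⟨i0, hi0⟩ : ∃ i, y i ≠ 0 := by
    obtain ⟨i, -⟩ : ∃ i, p i ≠ 0 := by
      by_contra h
      push Not at h
      exact hp (funext h)
    refine ⟨i, fun h => ?_⟩
    exact X_ne_zero i (hy 1 (X i) (isHomogeneous_X ℂ i) (by rw [aeval_X]; exact h))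
  let P := Polynomial E
  let Ω := FractionRing P
  let ψ : P →ₐ[E] Ω := IsScalarTower.toAlgHom E P Ω
  have hψ : Function.Injective ψ := IsFractionRing.injective P Ω
  let ψ' : P →ₐ[ℂ] Ω := IsScalarTower.toAlgHom ℂ P Ω
  let t : Ω := ψ Polynomial.X
  have ht : t ≠ 0 := by
    intro h
    exact Polynomial.X_ne_zero (hψ (h.trans (map_zero ψ).symm))
  have hψC : ∀ e : E, ψ (Polynomial.C e) = algebraMap E Ω e := fun e => ψ.commutes e
  let a0 : Fin r → Ω := fun i => t * algebraMap E Ω (y i)
  have ha0 : AlgebraicIndependent ℂ a0 := by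
    have h1 := (algInd_scale y hy).map' (f := ψ') hψ
    have h2 : (ψ' ∘ fun i => (Polynomial.X : Polynomial E) * Polynomial.C (y i)) = a0 := by
      funext i
      show ψ (Polynomial.X * Polynomial.C (y i)) = _
      rw [map_mul, hψC]
    rw [← h2]
    exact h1
  set K : IntermediateField ℂ Ω := adjoin ℂ (Set.range a0) with hK
  -- the field extension
  let τ : Unit → Ω := fun _ => a0 i0
  let R : IntermediateField ℂ E := ratioField y
  have htr : Transcendental E (a0 i0) := by
    intro h
    have h1 : IsAlgebraic E t := by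
      have h2 : t = a0 i0 * algebraMap E Ω (y i0)⁻¹ := by
        show t = t * algebraMap E Ω (y i0) * algebraMap E Ω (y i0)⁻¹
        rw [map_inv₀, mul_assoc, mul_inv_cancel₀, mul_one]
        rw [Ne, map_eq_zero]
        exact hi0
      rw [h2]
      exact h.mul (isAlgebraic_algebraMap _)
    have h3 : IsAlgebraic E (Polynomial.X : Polynomial E) :=
      (isAlgebraic_algHom_iff ψ hψ).1 h1
    exact Polynomial.transcendental_X E h3
  have hτ : AlgebraicIndependent E τ := by
    rw [algebraicIndependent_unique_type_iff]
    exact htr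
  have htop : adjoin E (Set.range τ) = ⊤ := by
    rw [eq_top_iff]
    rintro z -
    have hτm : a0 i0 ∈ adjoin E (Set.range τ) := subset_adjoin _ _ ⟨(), rfl⟩
    have htm : t ∈ adjoin E (Set.range τ) := by
      have h2 : t = a0 i0 * algebraMap E Ω (y i0)⁻¹ := by
        show t = t * algebraMap E Ω (y i0) * algebraMap E Ω (y i0)⁻¹
        rw [map_inv₀, mul_assoc, mul_inv_cancel₀, mul_one]
        rw [Ne, map_eq_zero]
        exact hi0
      rw [h2]
      exact mul_mem hτm (IntermediateField.algebraMap_mem _ _)
    have hP : ∀ q : P, ψ q ∈ adjoin E (Set.range τ) := by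
      intro q
      induction q using Polynomial.induction_on' with
      | add f g hf hg =>
        rw [map_add]
        exact add_mem hf hg
      | monomial n a =>
        rw [← Polynomial.C_mul_X_pow_eq_monomial, map_mul, map_pow, hψC]
        exact mul_mem (IntermediateField.algebraMap_mem _ _) (pow_mem htm n)
    obtain ⟨a, b, -, hz⟩ := IsFractionRing.div_surjective (A := P) z
    rw [← hz]
    exact div_mem (hP a) (hP b)
  obtain ⟨hE1, hE2⟩ := hext R E Ω _ τ hτ htop
  -- the same fields
  have hKa : ∀ i, a0 i ∈ K := fun i => subset_adjoin _ _ ⟨i, rfl⟩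
  have hratio : ∀ i j, algebraMap E Ω (y i / y j) = a0 i / a0 j := by
    intro i j
    show _ = t * algebraMap E Ω (y i) / (t * algebraMap E Ω (y j))
    rw [map_div₀, mul_div_mul_left _ _ ht]
  have hRK : ∀ z : E, z ∈ ratioField y → algebraMap E Ω z ∈ K := by
    intro z hz
    unfold ratioField at hz
    induction hz using IntermediateField.adjoin_induction with
    | mem z hz =>
      obtain ⟨i, j, rfl⟩ := hz
      rw [hratio]
      exact div_mem (hKa i) (hKa j)
    | algebraMap c =>
      rw [← IsScalarTower.algebraMap_apply]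
      exact IntermediateField.algebraMap_mem _ _
    | add a b _ _ ha hb =>
      rw [map_add]
      exact add_mem ha hb
    | inv a _ ha =>
      rw [map_inv₀]
      exact inv_mem ha
    | mul a b _ _ ha hb =>
      rw [map_mul]
      exact mul_mem ha hb
  have hmem : ∀ z : Ω, z ∈ (adjoin R (Set.range τ) : IntermediateField R Ω) ↔ z ∈ K := by
    intro z
    constructor
    · intro hz
      induction hz using IntermediateField.adjoin_induction with
      | mem z hz =>
        obtain ⟨_, rfl⟩ := hz
        exact hKa i0
      | algebraMap c => exact hRK c c.2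
      | add a b _ _ ha hb => exact add_mem ha hb
      | inv a _ ha => exact inv_mem ha
      | mul a b _ _ ha hb => exact mul_mem ha hb
    · intro hz
      rw [hK] at hz
      induction hz using IntermediateField.adjoin_induction with
      | mem z hz =>
        obtain ⟨i, rfl⟩ := hz
        have hr : y i / y i0 ∈ ratioField y := subset_adjoin _ _ ⟨i, i0, rfl⟩
        have h1 : a0 i = a0 i0 * algebraMap R Ω ⟨y i / y i0, hr⟩ := by
          have h2 : algebraMap R Ω ⟨y i / y i0, hr⟩ = algebraMap E Ω (y i / y i0) := rfl
          rw [h2, hratio]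
          have h3 : a0 i0 ≠ 0 := mul_ne_zero ht (by rw [Ne, map_eq_zero]; exact hi0)
          rw [mul_div_cancel₀ _ h3]
        rw [h1]
        exact mul_mem (subset_adjoin _ _ ⟨(), rfl⟩) (IntermediateField.algebraMap_mem _ _)
      | algebraMap c =>
        have h1 : algebraMap ℂ Ω c = algebraMap R Ω (algebraMap ℂ R c) :=
          IsScalarTower.algebraMap_apply ℂ R Ω c
        rw [h1]
        exact IntermediateField.algebraMap_mem _ _
      | add a b _ _ ha hb => exact add_mem ha hb
      | inv a _ ha => exact inv_mem ha
      | mul a b _ _ ha hb => exact mul_mem ha hb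
  obtain ⟨hs1, hs2⟩ := Pool.Agent.Y201.LI.finrank_same
    (A := (adjoin R (Set.range τ) : IntermediateField R Ω)) (B := K) (Ω := Ω) (by
      intro z
      constructor
      · rintro ⟨a, rfl⟩
        exact ⟨⟨(a : Ω), (hmem a).1 a.2⟩, rfl⟩
      · rintro ⟨a, rfl⟩
        exact ⟨⟨(a : Ω), (hmem a).2 a.2⟩, rfl⟩)
  have hfK : FiniteDimensional K Ω := hs1.1 hE1
  rw [← hE2, hs2]
  -- apply the degree divisibility
  let a : Fin r → K := fun i => ⟨a0 i, hKa i⟩
  have haI : AlgebraicIndependent ℂ a := by
    have h1 : (K.val ∘ a) = a0 := rfl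
    exact AlgebraicIndependent.of_comp K.val (h1 ▸ ha0)
  have haI2 : AlgebraicIndependent ℂ (Sum.elim a (Empty.elim : Empty → K)) := by
    have h1 := haI.comp (Equiv.sumEmpty (Fin r) Empty) (Equiv.injective _)
    convert h1 using 1
    funext s
    rcases s with s | s
    · rfl
    · exact s.elim
  have hadj : adjoin ℂ (Set.range a ∪ Set.range (Empty.elim : Empty → K)) = ⊤ := by
    rw [eq_top_iff]
    rintro ⟨z, hz⟩ -
    exact IntermediateField.adjoin_induction (F := ℂ) (s := Set.range a0)
      (p := fun v hv => (⟨v, hv⟩ : K) ∈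
        adjoin ℂ (Set.range a ∪ Set.range (Empty.elim : Empty → K)))
      (by
        rintro v ⟨i, rfl⟩
        exact subset_adjoin _ _ (Or.inl ⟨i, rfl⟩))
      (fun c => IntermediateField.algebraMap_mem _ c)
      (fun x y hx hy h1 h2 => add_mem h1 h2)
      (fun x hx h1 => inv_mem h1)
      (fun x y hx hy h1 h2 => mul_mem h1 h2) hz
  have hev : ∀ i, eval₂ ((algebraMap K Ω).comp (algebraMap ℂ K))
      (fun j => algebraMap E Ω (p j)) (pderiv i F) = algebraMap E Ω (aeval p (pderiv i F)) := by
    intro i
    have h1 : aeval (fun j => algebraMap E Ω (p j)) (pderiv i F) =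
        algebraMap E Ω (aeval p (pderiv i F)) := aeval_algebraMap_apply Ω p _
    rw [← h1, aeval_def, ← IsScalarTower.algebraMap_eq]
  refine hone ℂ r (d - 1) r ∅ (fun i => pderiv i F) (by simp) (fun i => hF.pderiv)
    (hbpf r F hsm d hF) Empty K Ω a Empty.elim haI2 hadj (fun j => algebraMap E Ω (p j)) ?_
    (by simp) ?_
  · intro h
    apply hp
    funext j
    have := congrFun h j
    simpa using this
  · have h1 : ∀ i, algebraMap K Ω (a i) * eval₂ ((algebraMap K Ω).comp (algebraMap ℂ K))
        (fun j => algebraMap E Ω (p j)) (pderiv i F) =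
        t * algebraMap E Ω (y i * aeval p (pderiv i F)) := by
      intro i
      rw [hev, map_mul, ← mul_assoc]
      rfl
    rw [Finset.sum_congr rfl fun i _ => h1 i, ← Finset.mul_sum, ← map_sum, hpol, map_zero, mul_zero]

end

end Pool.Agent.R845.T2
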