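import Mathlib
import Pool.Agent.R845.T2.Fin

/-! # Project T2: tangent lines of cubic hypersurfaces through the generic point -/

set_option autoImplicit false

namespace Pool.Agent.R845.T2

open MvPolynomial Pool.Agent.TH314.PD Module

noncomputable section

variable {r : ℕ} {F : MvPolynomial (Fin (r + 1)) ℂ} {M : Type} [Field M] [Algebra ℂ M]

/-- a change of the parameter of a line -/
theorem line_change (hF : F.IsHomogeneous 3) (x v : Fin (r + 1) → M) (C t : M)
    (h : aeval (fun j => Polynomial.C (x j) + Polynomial.X * Polynomial.C (v j)) F =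
      Polynomial.C C * Polynomial.X * (Polynomial.X - Polynomial.C t) ^ 2) :
    aeval (fun j => Polynomial.C (x j) + Polynomial.X * Polynomial.C (x j + t * v j)) F =
      Polynomial.C (C * t ^ 3) * Polynomial.X := by
  set ι : Polynomial M →ₐ[ℂ] LF M := IsScalarTower.toAlgHom ℂ (Polynomial M) (LF M) with hι
  have hιa : ∀ b, ι b = algebraMap (Polynomial M) (LF M) b := fun _ => rfl
  have hinj : Function.Injective ι := inj_LF
  apply hinj
  set s : LF M := ι Polynomial.X with hs
  have h1s : 1 + s ≠ 0 := by
    intro h0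
    have h1 : ι (1 + Polynomial.X) = 0 := by
      rw [map_add, map_one]
      exact h0
    have h2 : (1 + Polynomial.X : Polynomial M) = 0 := hinj (h1.trans (map_zero ι).symm)
    have h3 := congrArg (fun q => Polynomial.coeff q 1) h2
    simp [Polynomial.coeff_one] at h3
  set τ : LF M := s * ι (Polynomial.C t) / (1 + s) with hτ
  let φ : Polynomial M →ₐ[M] LF M := Polynomial.aeval τ
  have hφC : ∀ a, φ (Polynomial.C a) = ι (Polynomial.C a) := by
    intro a
    change Polynomial.aeval τ (Polynomial.C a) = _
    rw [Polynomial.aeval_C]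
    rfl
  have hφX : φ Polynomial.X = τ := Polynomial.aeval_X _
  let φ' : Polynomial M →ₐ[ℂ] LF M := φ.restrictScalars ℂ
  have hφ' : ∀ q, φ' q = φ q := fun _ => rfl
  have h2 := congrArg φ' h
  rw [comp_aeval_apply, hφ' (_ * _)] at h2
  simp only [map_mul, map_pow, map_sub, hφC, hφX] at h2
  have h3 := aeval_smul_form hF (1 + s)
    (fun j => φ' (Polynomial.C (x j) + Polynomial.X * Polynomial.C (v j)))
  rw [h2] at h3
  rw [comp_aeval_apply]
  have h4 : (fun j => ι (Polynomial.C (x j) + Polynomial.X * Polynomial.C (x j + t * v j))) =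
      fun j => (1 + s) * φ' (Polynomial.C (x j) + Polynomial.X * Polynomial.C (v j)) := by
    funext j
    have h5 : φ (Polynomial.C (x j) + Polynomial.X * Polynomial.C (v j)) =
        ι (Polynomial.C (x j)) + τ * ι (Polynomial.C (v j)) := by
      rw [map_add, map_mul, hφC, hφC, hφX]
    have h6 : ι (Polynomial.C (x j) + Polynomial.X * Polynomial.C (x j + t * v j)) =
        ι (Polynomial.C (x j)) + s * (ι (Polynomial.C (x j)) +
          ι (Polynomial.C t) * ι (Polynomial.C (v j))) := by
      rw [Polynomial.C_add, Polynomial.C_mul, map_add, map_mul, map_add, map_mul]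
    rw [hφ', h5, h6, hτ]
    field_simp
    ring
  rw [h4, h3, map_mul, Polynomial.C_mul, Polynomial.C_pow, map_mul, map_pow, hτ]
  change _ = _ * s
  field_simp
  ring

theorem tangent (hTAN : S_TAN) (hF : F.IsHomogeneous 3)
    (hsm : ∀ z : Fin (r + 1) → ℂ, (∀ i, eval z (pderiv i F) = 0) → z = 0)
    (x : Fin (r + 1) → M) (hx : aeval x F = 0)
    (hgen : ∀ (e : ℕ) (H : MvPolynomial (Fin (r + 1)) ℂ), H.IsHomogeneous e → aeval x H = 0 →
      F ∣ H)
    (hodd : Odd (finrank (ratioField x) M)) (v : Fin (r + 1) → M)
    (hv : LinearIndependent M ![x, v]) (a b c : M) :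
    aeval (fun j => Polynomial.C (x j) + Polynomial.X * Polynomial.C (v j)) F ≠
      Polynomial.C a * Polynomial.X * (Polynomial.C b * Polynomial.X + Polynomial.C c) ^ 2 := by
  intro h
  have key : ¬ (3 - 1 ∣ finrank (ratioField x) M) := by
    intro h1
    exact (Nat.not_even_iff_odd.2 hodd) (even_iff_two_dvd.2 h1)
  by_cases hb : b = 0
  · apply key
    refine hTAN r 3 F hF (by norm_num) hsm M x v (a * c ^ 2) hv hx hgen ?_
    rw [h, hb, Polynomial.C_0, zero_mul, zero_add, Polynomial.C_mul, Polynomial.C_pow]
    ring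
  · set t : M := -c / b with ht
    have h1 : aeval (fun j => Polynomial.C (x j) + Polynomial.X * Polynomial.C (v j)) F =
        Polynomial.C (a * b ^ 2) * Polynomial.X * (Polynomial.X - Polynomial.C t) ^ 2 := by
      have h2 : Polynomial.C c = - (Polynomial.C b * Polynomial.C t) := by
        rw [← Polynomial.C_mul, ← Polynomial.C_neg, ht]
        congr 1
        field_simp
      rw [h, h2, Polynomial.C_mul, Polynomial.C_pow]
      ring
    by_cases ht0 : t = 0
    · apply key
      refine Pool.Agent.Y201.LI.contact hF (by norm_num) hsm x hx hgen v hv (a * b ^ 2) ?_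
      rw [h1, ht0, Polynomial.C_0, sub_zero]
      ring
    · apply key
      refine hTAN r 3 F hF (by norm_num) hsm M x (fun j => x j + t * v j) (a * b ^ 2 * t ^ 3)
        ?_ hx hgen (line_change hF x v _ t h1)
      have hx0 : x ≠ 0 := hv.ne_zero 0
      rw [LinearIndependent.pair_iff] at hv ⊢
      intro α β hαβ
      have h3 := hv (α + β) (β * t) (by
        rw [← hαβ]
        funext j
        simp only [Pi.add_apply, Pi.smul_apply, smul_eq_mul]
        ring)
      have h4 : β = 0 := (mul_eq_zero.1 h3.2).resolve_right ht0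
      refine ⟨?_, h4⟩
      have := h3.1
      rwa [h4, add_zero] at this

end

end Pool.Agent.R845.T2
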